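import Mathlib

/-!
# Parametrisation of conics
-/

namespace Pool.Agent.H19.TW

variable {K : Type*} [CommRing K]

/-- A ternary quadratic form. -/
def q3 (a b c d e f x y z : K) : K := a * x ^ 2 + b * y ^ 2 + c * z ^ 2 + d * x * y + e * x * z + f * y * z

/-- Its polar form. -/
def p3 (a b c d e f x y z x' y' z' : K) : K :=
  2 * a * x * x' + 2 * b * y * y' + 2 * c * z * z' + d * (x * y' + x' * y) + e * (x * z' + x' * z) +
    f * (y * z' + y' * z)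

/-- Its discriminant. -/
def disc3 (a b c d e f : K) : K := 4 * a * b * c + d * e * f - a * f ^ 2 - b * e ^ 2 - c * d ^ 2

/-- A determinant. -/
def det3 (p0 p1 p2 q0 q1 q2 r0 r1 r2 : K) : K :=
  p0 * (q1 * r2 - q2 * r1) - p1 * (q0 * r2 - q2 * r0) + p2 * (q0 * r1 - q1 * r0)

/-- A parametrisation of the conic by binary quadratic forms. -/
def Good (a b c d e f p0 p1 p2 q0 q1 q2 r0 r1 r2 : ℤ) : Prop :=
  det3 p0 p1 p2 q0 q1 q2 r0 r1 r2 ≠ 0 ∧
  q3 a b c d e f p0 p1 p2 = 0 ∧ p3 a b c d e f p0 p1 p2 q0 q1 q2 = 0 ∧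
  q3 a b c d e f q0 q1 q2 + p3 a b c d e f p0 p1 p2 r0 r1 r2 = 0 ∧
  p3 a b c d e f q0 q1 q2 r0 r1 r2 = 0 ∧ q3 a b c d e f r0 r1 r2 = 0 ∧
  ∀ X Y Z : ℤ, ¬ (X = 0 ∧ Y = 0 ∧ Z = 0) → q3 a b c d e f X Y Z = 0 →
    ∃ m s t : ℤ, m ≠ 0 ∧ ¬ (s = 0 ∧ t = 0) ∧ m * X = p0 * s ^ 2 + q0 * (s * t) + r0 * t ^ 2 ∧
      m * Y = p1 * s ^ 2 + q1 * (s * t) + r1 * t ^ 2 ∧ m * Z = p2 * s ^ 2 + q2 * (s * t) + r2 * t ^ 2

lemma det3_indep {L : Type*} [CommRing L] [NoZeroDivisors L] {p0 p1 p2 q0 q1 q2 r0 r1 r2 s t : L}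
    (hdet : det3 p0 p1 p2 q0 q1 q2 r0 r1 r2 ≠ 0)
    (h0 : p0 * s ^ 2 + q0 * (s * t) + r0 * t ^ 2 = 0)
    (h1 : p1 * s ^ 2 + q1 * (s * t) + r1 * t ^ 2 = 0)
    (h2 : p2 * s ^ 2 + q2 * (s * t) + r2 * t ^ 2 = 0) : s = 0 ∧ t = 0 := by
  have hs : det3 p0 p1 p2 q0 q1 q2 r0 r1 r2 * s ^ 2 = 0 := by
    unfold det3
    linear_combination (q1 * r2 - q2 * r1) * h0 - (q0 * r2 - q2 * r0) * h1 + (q0 * r1 - q1 * r0) * h2
  have ht : det3 p0 p1 p2 q0 q1 q2 r0 r1 r2 * t ^ 2 = 0 := by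
    unfold det3
    linear_combination (p1 * q2 - p2 * q1) * h0 - (p0 * q2 - p2 * q0) * h1 + (p0 * q1 - p1 * q0) * h2
  constructor
  · have := (mul_eq_zero.mp hs).resolve_left hdet
    exact pow_eq_zero_iff (two_ne_zero) |>.mp this
  · have := (mul_eq_zero.mp ht).resolve_left hdet
    exact pow_eq_zero_iff (two_ne_zero) |>.mp this

lemma conic_x {a b c d e f X0 Y0 Z0 : ℤ} (hD : disc3 a b c d e f ≠ 0) (hX : X0 ≠ 0)
    (h0 : q3 a b c d e f X0 Y0 Z0 = 0) :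
    ∃ p0 p1 p2 q0 q1 q2 r0 r1 r2 : ℤ, Good a b c d e f p0 p1 p2 q0 q1 q2 r0 r1 r2 := by
  set u1 : ℤ := 2 * b * Y0 + d * X0 + f * Z0 with hu1
  set u2 : ℤ := 2 * c * Z0 + e * X0 + f * Y0 with hu2
  have hQv : b * u2 ^ 2 - f * u1 * u2 + c * u1 ^ 2 = -(X0 ^ 2 * disc3 a b c d e f) := by
    unfold q3 at h0
    unfold disc3
    rw [hu1, hu2]
    linear_combination (4 * b * c - f ^ 2) * h0
  have hQv0 : b * u2 ^ 2 - f * u1 * u2 + c * u1 ^ 2 ≠ 0 := by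
    rw [hQv]
    exact neg_ne_zero.mpr (mul_ne_zero (pow_ne_zero 2 hX) hD)
  have hdet : det3 (b * X0) (b * Y0 - u1) (b * Z0) (f * X0) (f * Y0 - u2) (f * Z0 - u1) (c * X0) (c * Y0)
      (c * Z0 - u2) = X0 * (b * u2 ^ 2 - f * u1 * u2 + c * u1 ^ 2) := by
    unfold det3
    ring
  have hdet0 := hdet
  refine ⟨b * X0, b * Y0 - u1, b * Z0, f * X0, f * Y0 - u2, f * Z0 - u1, c * X0, c * Y0, c * Z0 - u2,
    ?_, ?_, ?_, ?_, ?_, ?_, ?_⟩
  · rw [hdet]; exact mul_ne_zero hX hQv0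
  · unfold q3 at h0 ⊢
    rw [hu1]
    linear_combination b ^ 2 * h0
  · unfold q3 at h0
    unfold p3
    rw [hu1, hu2]
    linear_combination 2 * b * f * h0
  · unfold q3 at h0 ⊢
    unfold p3
    rw [hu1, hu2]
    linear_combination (f ^ 2 + 2 * b * c) * h0
  · unfold q3 at h0
    unfold p3
    rw [hu1, hu2]
    linear_combination 2 * c * f * h0
  · unfold q3 at h0 ⊢
    rw [hu2]
    linear_combination c ^ 2 * h0
  · intro X Y Z hXYZ hQ
    by_cases hst : X0 * Y - Y0 * X = 0 ∧ X0 * Z - Z0 * X = 0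
    · obtain ⟨hs, ht⟩ := hst
      have hXne : X ≠ 0 := by
        rintro rfl
        apply hXYZ
        refine ⟨rfl, ?_, ?_⟩
        · have : X0 * Y = 0 := by linear_combination hs
          exact (mul_eq_zero.mp this).resolve_left hX
        · have : X0 * Z = 0 := by linear_combination ht
          exact (mul_eq_zero.mp this).resolve_left hX
      refine ⟨X * X0 * (b * u2 ^ 2 - f * u1 * u2 + c * u1 ^ 2), X * (-u2), X * u1,
        mul_ne_zero (mul_ne_zero hXne hX) hQv0, ?_, ?_, ?_, ?_⟩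
      · rintro ⟨h1, h2⟩
        apply hQv0
        have h3 : u2 = 0 := by
          have := (mul_eq_zero.mp h1).resolve_left hXne
          simpa using this
        have h4 : u1 = 0 := (mul_eq_zero.mp h2).resolve_left hXne
        rw [h3, h4]; ring
      · ring
      · linear_combination (X * (b * u2 ^ 2 - f * u1 * u2 + c * u1 ^ 2)) * hs
      · linear_combination (X * (b * u2 ^ 2 - f * u1 * u2 + c * u1 ^ 2)) * ht
    · set m : ℤ := -(X0 ^ 2 * p3 a b c d e f X0 Y0 Z0 X Y Z) with hm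
      have e0 : m * X = b * X0 * (X0 * Y - Y0 * X) ^ 2 + f * X0 * ((X0 * Y - Y0 * X) * (X0 * Z - Z0 * X)) +
          c * X0 * (X0 * Z - Z0 * X) ^ 2 := by
        rw [hm]
        unfold q3 at h0 hQ
        unfold p3
        linear_combination (-X0 * X ^ 2) * h0 - (X0 ^ 3) * hQ
      have e1 : m * Y = (b * Y0 - u1) * (X0 * Y - Y0 * X) ^ 2 +
          (f * Y0 - u2) * ((X0 * Y - Y0 * X) * (X0 * Z - Z0 * X)) +
          c * Y0 * (X0 * Z - Z0 * X) ^ 2 := by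
        rw [hm, hu1, hu2]
        unfold q3 at h0 hQ
        unfold p3
        linear_combination (-2 * X0 * X * Y + Y0 * X ^ 2) * h0 - (X0 ^ 2 * Y0) * hQ
      have e2 : m * Z = b * Z0 * (X0 * Y - Y0 * X) ^ 2 +
          (f * Z0 - u1) * ((X0 * Y - Y0 * X) * (X0 * Z - Z0 * X)) +
          (c * Z0 - u2) * (X0 * Z - Z0 * X) ^ 2 := by
        rw [hm, hu1, hu2]
        unfold q3 at h0 hQ
        unfold p3
        linear_combination (-2 * X0 * X * Z + Z0 * X ^ 2) * h0 - (X0 ^ 2 * Z0) * hQ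
      refine ⟨m, X0 * Y - Y0 * X, X0 * Z - Z0 * X, ?_, hst, e0, e1, e2⟩
      intro hm0
      rw [hm0, zero_mul] at e0 e1 e2
      apply hst
      refine det3_indep (p0 := b * X0) (p1 := b * Y0 - u1) (p2 := b * Z0) (q0 := f * X0) (q1 := f * Y0 - u2)
        (q2 := f * Z0 - u1) (r0 := c * X0) (r1 := c * Y0) (r2 := c * Z0 - u2) ?_ e0.symm e1.symm e2.symm
      rw [hdet]; exact mul_ne_zero hX hQv0

lemma good_swap {a b c d e f p0 p1 p2 q0 q1 q2 r0 r1 r2 : ℤ}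
    (h : Good b a c d f e p1 p0 p2 q1 q0 q2 r1 r0 r2) : Good a b c d e f p0 p1 p2 q0 q1 q2 r0 r1 r2 := by
  obtain ⟨h1, h2, h3, h4, h5, h6, h7⟩ := h
  refine ⟨?_, ?_, ?_, ?_, ?_, ?_, ?_⟩
  · intro h; apply h1; unfold det3 at h ⊢; linear_combination -h
  · unfold q3 at h2 ⊢; linear_combination h2
  · unfold p3 at h3 ⊢; linear_combination h3
  · unfold q3 p3 at h4 ⊢; linear_combination h4
  · unfold p3 at h5 ⊢; linear_combination h5
  · unfold q3 at h6 ⊢; linear_combination h6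
  · intro X Y Z hne hQ
    obtain ⟨m, s, t, hm, hst, e1, e2, e3⟩ := h7 Y X Z (fun h => hne ⟨h.2.1, h.1, h.2.2⟩)
      (by unfold q3 at hQ ⊢; linear_combination hQ)
    exact ⟨m, s, t, hm, hst, e2, e1, e3⟩

lemma good_swap' {a b c d e f p0 p1 p2 q0 q1 q2 r0 r1 r2 : ℤ}
    (h : Good c b a f e d p2 p1 p0 q2 q1 q0 r2 r1 r0) : Good a b c d e f p0 p1 p2 q0 q1 q2 r0 r1 r2 := by
  obtain ⟨h1, h2, h3, h4, h5, h6, h7⟩ := h
  refine ⟨?_, ?_, ?_, ?_, ?_, ?_, ?_⟩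
  · intro h; apply h1; unfold det3 at h ⊢; linear_combination -h
  · unfold q3 at h2 ⊢; linear_combination h2
  · unfold p3 at h3 ⊢; linear_combination h3
  · unfold q3 p3 at h4 ⊢; linear_combination h4
  · unfold p3 at h5 ⊢; linear_combination h5
  · unfold q3 at h6 ⊢; linear_combination h6
  · intro X Y Z hne hQ
    obtain ⟨m, s, t, hm, hst, e1, e2, e3⟩ := h7 Z Y X (fun h => hne ⟨h.2.2, h.2.1, h.1⟩)
      (by unfold q3 at hQ ⊢; linear_combination hQ)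
    exact ⟨m, s, t, hm, hst, e3, e2, e1⟩

/-- Parametrisation of a smooth conic with a rational point. -/
theorem conic {a b c d e f X0 Y0 Z0 : ℤ} (hD : disc3 a b c d e f ≠ 0)
    (hne : ¬ (X0 = 0 ∧ Y0 = 0 ∧ Z0 = 0)) (h0 : q3 a b c d e f X0 Y0 Z0 = 0) :
    ∃ p0 p1 p2 q0 q1 q2 r0 r1 r2 : ℤ, Good a b c d e f p0 p1 p2 q0 q1 q2 r0 r1 r2 := by
  by_cases hX : X0 ≠ 0
  · exact conic_x hD hX h0
  by_cases hY : Y0 ≠ 0
  · obtain ⟨p0, p1, p2, q0, q1, q2, r0, r1, r2, h⟩ := conic_x (a := b) (b := a) (c := c) (d := d) (e := f) (f := e)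
      (X0 := Y0) (Y0 := X0) (Z0 := Z0) (by unfold disc3 at hD ⊢; intro h; apply hD; linear_combination h) hY
      (by unfold q3 at h0 ⊢; linear_combination h0)
    exact ⟨p1, p0, p2, q1, q0, q2, r1, r0, r2, good_swap h⟩
  · have hZ : Z0 ≠ 0 := by
      push Not at hX hY
      intro hZ; exact hne ⟨hX, hY, hZ⟩
    obtain ⟨p0, p1, p2, q0, q1, q2, r0, r1, r2, h⟩ := conic_x (a := c) (b := b) (c := a) (d := f) (e := e) (f := d)
      (X0 := Z0) (Y0 := Y0) (Z0 := X0) (by unfold disc3 at hD ⊢; intro h; apply hD; linear_combination h) hZ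
      (by unfold q3 at h0 ⊢; linear_combination h0)
    exact ⟨p2, p1, p0, q2, q1, q0, r2, r1, r0, good_swap' h⟩

end Pool.Agent.H19.TW
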