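import Pool.Agent.H19.TW.Descent

/-!
# A small element of the lattice of nonzero norm
-/

namespace Pool.Agent.H19.TW

open Cu

lemma exists_roots (A B : ℂ) : ∃ u v w : ℂ, u + v + w = 0 ∧ u * v + u * w + v * w = A ∧ u * v * w = -B := by
  obtain ⟨u, hu⟩ : ∃ u : ℂ, u ^ 3 + A * u + B = 0 := by
    have h1 : (Polynomial.X ^ 3 + Polynomial.C A * Polynomial.X + Polynomial.C B : Polynomial ℂ).degree ≠ 0 := by
      have : (Polynomial.X ^ 3 + Polynomial.C A * Polynomial.X + Polynomial.C B : Polynomial ℂ).degree = 3 := by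
        compute_degree!
      rw [this]; norm_num
    obtain ⟨u, hu⟩ := IsAlgClosed.exists_root _ h1
    refine ⟨u, ?_⟩
    have h2 : Polynomial.eval u (Polynomial.X ^ 3 + Polynomial.C A * Polynomial.X + Polynomial.C B : Polynomial ℂ) = 0 := hu
    simpa using h2
  obtain ⟨r, hr⟩ : ∃ r : ℂ, r ^ 2 = u ^ 2 - 4 * (u ^ 2 + A) := IsAlgClosed.exists_pow_nat_eq _ (by norm_num)
  refine ⟨u, (-u + r) / 2, (-u - r) / 2, by ring, ?_, ?_⟩
  · linear_combination (-1 / 4 : ℂ) * hr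
  · linear_combination (-u / 4 : ℂ) * hr + hu

/-- The value of an element at a root. -/
noncomputable def ev {A B : ℤ} (u : ℂ) (b : Cu A B) : ℂ := b.c0 + b.c1 * u + b.c2 * u ^ 2

lemma nm_eq_prod {A B : ℤ} {u v w : ℂ} (h1 : u + v + w = 0) (h2 : u * v + u * w + v * w = A)
    (h3 : u * v * w = -B) (b : Cu A B) : ((nm b : ℤ) : ℂ) = ev u b * ev v b * ev w b := by
  have hw : w = -u - v := by linear_combination h1
  have hA : (A : ℂ) = u * v + u * w + v * w := h2.symm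
  have hB : (B : ℂ) = -(u * v * w) := by rw [h3]; ring
  unfold nm ev
  push_cast
  rw [hA, hB, hw]
  ring

lemma ev_sub {A B : ℤ} (u : ℂ) (b b' : Cu A B) : ev u (b - b') = ev u b - ev u b' := by
  unfold ev
  simp only [sub_c0, sub_c1, sub_c2]
  push_cast
  ring

/-- Triples of natural numbers as elements. -/
def tr (A B : ℤ) (t : ℕ × ℕ × ℕ) : Cu A B := ⟨t.1, t.2.1, t.2.2⟩

/-- There are few elements of the lattice in a box which vanish at a given root. -/
lemma card_zero_le {A B : ℤ} (hΔ : 4 * A ^ 3 + 27 * B ^ 2 ≠ 0) {x z : ℤ} (hxz : IsCoprime x z)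
    (hz : (2 * (|A| + |B|) + 1) * |z| ≤ |x|) (hM : cf A B x z ≠ 0) {u : ℂ} {H : ℕ}
    (hH : ‖u‖ + ‖u‖ ^ 2 ≤ H) (hH1 : 1 ≤ H) {q : ℕ} (hq : (q : ℤ) = c₁ A B * H ^ 2) (hqx : q ≤ x.natAbs)
    {K N : ℕ} (hN : N ^ 2 ≤ K ^ 2 * x.natAbs)
    (T : Finset (ℕ × ℕ × ℕ)) (hT : ∀ t ∈ T, t.1 ≤ N ∧ t.2.1 ≤ N ∧ t.2.2 ≤ N)
    (hT2 : ∀ t ∈ T, ∀ t' ∈ T, cf A B x z ∣ (lf x z (tr A B t - tr A B t')) ^ 2)
    (hT3 : ∀ t ∈ T, ∀ t' ∈ T, ev u (tr A B t) = ev u (tr A B t')) :
    T.card ≤ (2 * K * q + 1) ^ 2 := by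
  have hx : x ≠ 0 := by
    rintro rfl
    have hA := abs_nonneg A
    have hB := abs_nonneg B
    have h1 := abs_nonneg z
    have hz0 : z = 0 := by
      simp only [abs_zero] at hz
      have : |z| = 0 := by nlinarith [mul_nonneg hA h1, mul_nonneg hB h1]
      exact abs_eq_zero.mp this
    apply hM
    unfold cf
    rw [hz0]; ring
  set R := x.natAbs with hR
  have hRx : (R : ℤ) = |x| := by rw [hR]; exact Int.natCast_natAbs x
  have hq0 : 0 < q := by
    have h1 : (0 : ℤ) < q := by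
      rw [hq]
      have := c₁_pos A B
      have : (0 : ℤ) < H := by exact_mod_cast hH1
      positivity
    exact_mod_cast h1
  set l := Nat.sqrt (R / q) with hl
  have hl2 : q * l ^ 2 ≤ R := by
    have h1 : l * l ≤ R / q := Nat.sqrt_le _
    calc q * l ^ 2 = q * (l * l) := by ring
      _ ≤ q * (R / q) := Nat.mul_le_mul_left _ h1
      _ ≤ R := Nat.mul_div_le R q
  have hl1 : 1 ≤ l := by
    have h1 : 1 ≤ R / q := (Nat.one_le_div_iff hq0).mpr hqx
    exact Nat.sqrt_pos.mpr h1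
  have hl3 : R < q * (l + 1) ^ 2 := by
    have h1 : R / q < (l + 1) * (l + 1) := Nat.lt_succ_sqrt _
    have h2 : R < q * (R / q + 1) := by
      have := Nat.lt_mul_div_succ R hq0
      exact this
    calc R < q * (R / q + 1) := h2
      _ ≤ q * ((l + 1) * (l + 1)) := Nat.mul_le_mul_left _ h1
      _ = _ := by ring
  have hNl : N ≤ 2 * K * q * l := by
    have h1 : N ^ 2 ≤ (2 * K * q * l) ^ 2 := by
      calc N ^ 2 ≤ K ^ 2 * R := hN
        _ ≤ K ^ 2 * (q * (l + 1) ^ 2) := Nat.mul_le_mul_left _ hl3.le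
        _ ≤ K ^ 2 * (q ^ 2 * (2 * l) ^ 2) := by
            apply Nat.mul_le_mul_left
            apply Nat.mul_le_mul
            · nlinarith
            · exact Nat.pow_le_pow_left (by omega) 2
        _ = _ := by ring
    exact (Nat.pow_le_pow_iff_left (by norm_num)).mp h1
  have hdiv : ∀ n : ℕ, n ≤ N → n / l < 2 * K * q + 1 := by
    intro n hn
    have h1 : n / l ≤ (2 * K * q * l) / l := Nat.div_le_div_right (hn.trans hNl)
    rw [Nat.mul_div_cancel _ (by omega)] at h1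
    omega
  have hcard : T.card ≤ (Finset.range (2 * K * q + 1) ×ˢ Finset.range (2 * K * q + 1)).card := by
    refine Finset.card_le_card_of_injOn (fun t => (t.2.1 / l, t.2.2 / l)) ?_ ?_
    · intro t ht
      obtain ⟨_, h2, h3⟩ := hT t ht
      simp only [Finset.coe_product, Set.mem_prod, Finset.mem_coe, Finset.mem_range]
      exact ⟨hdiv _ h2, hdiv _ h3⟩
    · intro t ht t' ht' heq
      simp only [Prod.mk.injEq] at heq
      obtain ⟨h1, h2⟩ := heq
      by_contra hne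
      have hd : ∀ m n : ℕ, m / l = n / l → |(m : ℤ) - n| ≤ l - 1 := by
        intro m n hmn
        have e1 := Nat.div_add_mod m l
        have e2 := Nat.div_add_mod n l
        have f1 := Nat.mod_lt m (show 0 < l by omega)
        have f2 := Nat.mod_lt n (show 0 < l by omega)
        rw [hmn] at e1
        have g1 : (m : ℤ) - n = (m % l : ℕ) - (n % l : ℕ) := by
          have e1' : (l : ℤ) * (n / l : ℕ) + (m % l : ℕ) = m := by exact_mod_cast e1
          have e2' : (l : ℤ) * (n / l : ℕ) + (n % l : ℕ) = n := by exact_mod_cast e2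
          linarith
        rw [g1, abs_le]
        constructor <;> omega
      have d1 := hd _ _ h1
      have d2 := hd _ _ h2
      have hev : ev u (tr A B t - tr A B t') = 0 := by
        rw [ev_sub, hT3 t ht t' ht', sub_self]
      have hb0 : tr A B t - tr A B t' ≠ 0 := by
        intro h
        apply hne
        have g0 := congrArg c0 h
        have g1 := congrArg c1 h
        have g2 := congrArg c2 h
        simp only [sub_c0, sub_c1, sub_c2, tr, zero_c0, zero_c1, zero_c2] at g0 g1 g2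
        ext
        · omega
        · omega
        · omega
      have hH0 : (1 : ℤ) ≤ H := by exact_mod_cast hH1
      have hl0 : (0 : ℤ) ≤ (l : ℤ) - 1 := by
        have : (1 : ℤ) ≤ l := by exact_mod_cast hl1
        linarith
      have d0 : |((t.1 : ℕ) : ℤ) - t'.1| ≤ H * ((l : ℤ) - 1) := by
        have e1 : ((((t.1 : ℕ) : ℤ) - t'.1 : ℤ) : ℂ) = -((((t.2.1 : ℕ) : ℤ) - t'.2.1 : ℤ) * u +
            (((t.2.2 : ℕ) : ℤ) - t'.2.2 : ℤ) * u ^ 2) := by
          unfold ev at hev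
          simp only [sub_c0, sub_c1, sub_c2, tr] at hev
          linear_combination hev
        have e2 : ‖((((t.1 : ℕ) : ℤ) - t'.1 : ℤ) : ℂ)‖ = ((|((t.1 : ℕ) : ℤ) - t'.1| : ℤ) : ℝ) := by
          rw [Complex.norm_intCast]; push_cast; rfl
        have e3 : ‖((((t.2.1 : ℕ) : ℤ) - t'.2.1 : ℤ) : ℂ)‖ = ((|((t.2.1 : ℕ) : ℤ) - t'.2.1| : ℤ) : ℝ) := by
          rw [Complex.norm_intCast]; push_cast; rfl
        have e4 : ‖((((t.2.2 : ℕ) : ℤ) - t'.2.2 : ℤ) : ℂ)‖ = ((|((t.2.2 : ℕ) : ℤ) - t'.2.2| : ℤ) : ℝ) := by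
          rw [Complex.norm_intCast]; push_cast; rfl
        have f1 : ((|((t.2.1 : ℕ) : ℤ) - t'.2.1| : ℤ) : ℝ) ≤ (l : ℝ) - 1 := by exact_mod_cast d1
        have f2 : ((|((t.2.2 : ℕ) : ℤ) - t'.2.2| : ℤ) : ℝ) ≤ (l : ℝ) - 1 := by exact_mod_cast d2
        have f3 : ((|((t.1 : ℕ) : ℤ) - t'.1| : ℤ) : ℝ) ≤ H * ((l : ℝ) - 1) := by
          rw [← e2, e1, norm_neg]
          refine (norm_add_le _ _).trans ?_
          rw [norm_mul, norm_mul, norm_pow, e3, e4]
          have hl0' : (0 : ℝ) ≤ (l : ℝ) - 1 := by exact_mod_cast hl0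
          calc _ ≤ ((l : ℝ) - 1) * ‖u‖ + ((l : ℝ) - 1) * ‖u‖ ^ 2 := by gcongr
            _ = (‖u‖ + ‖u‖ ^ 2) * ((l : ℝ) - 1) := by ring
            _ ≤ _ := mul_le_mul_of_nonneg_right hH hl0'
        exact_mod_cast f3
      have hbd : bd (tr A B t - tr A B t') (H * ((l : ℤ) - 1)) := by
        have hHl : (l : ℤ) - 1 ≤ H * ((l : ℤ) - 1) := by nlinarith
        exact ⟨d0, d1.trans hHl, d2.trans hHl⟩
      have hmin := lattice_min hΔ hxz hz hx hM (hT2 t ht t' ht') hb0 hbd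
      have h5 : c₁ A B * (H * ((l : ℤ) - 1)) ^ 2 < |x| := by
        have h6 : (q : ℤ) * l ^ 2 ≤ |x| := by rw [← hRx]; exact_mod_cast hl2
        have h7 : c₁ A B * (H * ((l : ℤ) - 1)) ^ 2 = q * ((l : ℤ) - 1) ^ 2 := by rw [hq]; ring
        have h8 : (0 : ℤ) < q := by exact_mod_cast hq0
        rw [h7]
        nlinarith
      linarith
  rw [Finset.card_product, Finset.card_range] at hcard
  calc T.card ≤ _ := hcard
    _ = _ := by ring

/-- A small element of the lattice with nonzero norm. -/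
theorem exists_small {A B : ℤ} (hΔ : 4 * A ^ 3 + 27 * B ^ 2 ≠ 0) {e : ℤ} (he : e ≠ 0) :
    ∃ r₀ U : ℤ, ∀ x z y : ℤ, IsCoprime x z → y ^ 2 = e * cf A B x z →
      (2 * (|A| + |B|) + 1) * |z| ≤ |x| → r₀ ≤ |x| →
      ∃ b α : Cu A B, nm α ≠ 0 ∧ bd α U ∧ b * b = el A B x z * α := by
  obtain ⟨u, v, w, h1, h2, h3⟩ := exists_roots A B
  obtain ⟨H, hH⟩ := exists_nat_ge (1 + (‖u‖ + ‖u‖ ^ 2) + (‖v‖ + ‖v‖ ^ 2) + (‖w‖ + ‖w‖ ^ 2))
  have hHu : ‖u‖ + ‖u‖ ^ 2 ≤ H := by
    have := norm_nonneg v; have := norm_nonneg w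
    nlinarith [sq_nonneg ‖v‖, sq_nonneg ‖w‖]
  have hHv : ‖v‖ + ‖v‖ ^ 2 ≤ H := by
    have := norm_nonneg u; have := norm_nonneg w
    nlinarith [sq_nonneg ‖u‖, sq_nonneg ‖w‖]
  have hHw : ‖w‖ + ‖w‖ ^ 2 ≤ H := by
    have := norm_nonneg u; have := norm_nonneg v
    nlinarith [sq_nonneg ‖u‖, sq_nonneg ‖v‖]
  have hH1 : 1 ≤ H := by
    have h4 : (1 : ℝ) ≤ H := by
      have := norm_nonneg u; have := norm_nonneg v; have := norm_nonneg w
      nlinarith [sq_nonneg ‖u‖, sq_nonneg ‖v‖, sq_nonneg ‖w‖]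
    exact_mod_cast h4
  obtain ⟨q, hq⟩ : ∃ q : ℕ, (q : ℤ) = c₁ A B * H ^ 2 := by
    refine ⟨(c₁ A B * H ^ 2).toNat, Int.toNat_of_nonneg ?_⟩
    have := c₁_pos A B
    positivity
  have hq0 : 0 < q := by
    have h1 : (0 : ℤ) < q := by
      rw [hq]
      have := c₁_pos A B
      have : (0 : ℤ) < H := by exact_mod_cast hH1
      positivity
    exact_mod_cast h1
  set E := e.natAbs with hE
  have hE0 : 0 < E := Int.natAbs_pos.mpr he
  set K : ℕ := 1458 * E * q ^ 2 with hK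
  have hK0 : 0 < K := by positivity
  set V : ℕ := (2 * K * q + 1) ^ 2 with hV
  refine ⟨q, c₁ A B * K ^ 2, ?_⟩
  intro x z y hxz heq hz hr
  obtain ⟨s1, s2⟩ := cf_size (A := A) (B := B) hz
  have hxa : 0 < |x| := lt_of_lt_of_le (by exact_mod_cast hq0) hr
  have hx : x ≠ 0 := abs_pos.mp hxa
  have hM : cf A B x z ≠ 0 := by
    intro h
    rw [h, abs_zero, mul_zero] at s1
    have : 0 < |x| ^ 3 := by positivity
    linarith
  set R := x.natAbs with hR
  have hRx : (R : ℤ) = |x| := by rw [hR]; exact Int.natCast_natAbs x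
  have hqR : q ≤ R := by
    have : (q : ℤ) ≤ R := by rw [hRx]; exact hr
    exact_mod_cast this
  set N := Nat.sqrt (K ^ 2 * R) with hN
  have hN1 : N ^ 2 ≤ K ^ 2 * R := by
    have := Nat.sqrt_le (K ^ 2 * R)
    rw [← hN] at this
    nlinarith
  have hN2 : K ^ 2 * R < (N + 1) ^ 2 := by
    have := Nat.lt_succ_sqrt (K ^ 2 * R)
    rw [← hN] at this
    nlinarith
  have hy : y ≠ 0 := by
    rintro rfl
    apply mul_ne_zero he hM
    rw [← heq]; ring
  set m : ℕ := y.natAbs with hm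
  have hm0 : 0 < m := Int.natAbs_pos.mpr hy
  have hm2 : m ^ 2 ≤ 2 * E * R ^ 3 := by
    have h4 : ((m ^ 2 : ℕ) : ℤ) ≤ ((2 * E * R ^ 3 : ℕ) : ℤ) := by
      push_cast
      rw [hRx]
      have e1 : (m : ℤ) ^ 2 = |e| * |cf A B x z| := by
        rw [hm, Int.natCast_natAbs, sq_abs, ← abs_mul, ← heq, abs_of_nonneg (sq_nonneg _)]
      have e2 : (E : ℤ) = |e| := by rw [hE]; exact Int.natCast_natAbs e
      rw [e1, e2]
      have h5 : |cf A B x z| ≤ 2 * |x| ^ 3 := by
        have : 0 < |x| ^ 3 := by positivity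
        linarith
      calc |e| * |cf A B x z| ≤ |e| * (2 * |x| ^ 3) := mul_le_mul_of_nonneg_left h5 (abs_nonneg _)
        _ = _ := by ring
    exact_mod_cast h4
  -- pigeonhole
  set S : Finset (ℕ × ℕ × ℕ) := Finset.range (N + 1) ×ˢ Finset.range (N + 1) ×ˢ Finset.range (N + 1) with hS
  have hScard : S.card = (N + 1) ^ 3 := by
    rw [hS, Finset.card_product, Finset.card_product, Finset.card_range]; ring
  have hpig : (Finset.Ico (0 : ℤ) m).card * (3 * V) < S.card := by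
    rw [hScard, Int.card_Ico, sub_zero, Int.toNat_natCast]
    have h5 : (m * (3 * V)) ^ 2 < ((N + 1) ^ 3) ^ 2 := by
      have hVb : V ^ 2 ≤ 81 * K ^ 4 * q ^ 4 := by
        have h6 : 2 * K * q + 1 ≤ 3 * K * q := by
          have : 1 ≤ K * q := Nat.mul_pos hK0 hq0
          nlinarith
        calc V ^ 2 = (2 * K * q + 1) ^ 4 := by rw [hV]; ring
          _ ≤ (3 * K * q) ^ 4 := Nat.pow_le_pow_left h6 4
          _ = _ := by ring
      have hKb : 1458 * E * q ^ 4 ≤ K ^ 2 := by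
        have : K ^ 2 = (1458 * E * q ^ 4) * (1458 * E) := by rw [hK]; ring
        rw [this]
        exact Nat.le_mul_of_pos_right _ (by positivity)
      calc (m * (3 * V)) ^ 2 = 9 * m ^ 2 * V ^ 2 := by ring
        _ ≤ 9 * (2 * E * R ^ 3) * (81 * K ^ 4 * q ^ 4) := by gcongr
        _ = (1458 * E * q ^ 4) * (K ^ 4 * R ^ 3) := by ring
        _ ≤ K ^ 2 * (K ^ 4 * R ^ 3) := Nat.mul_le_mul_right _ hKb
        _ = (K ^ 2 * R) ^ 3 := by ring
        _ < ((N + 1) ^ 2) ^ 3 := Nat.pow_lt_pow_left hN2 (by norm_num)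
        _ = _ := by ring
    exact lt_of_pow_lt_pow_left₀ 2 (by positivity) h5
  have hmaps : ∀ t ∈ S, lf x z (tr A B t) % (m : ℤ) ∈ Finset.Ico (0 : ℤ) m := by
    intro t _
    rw [Finset.mem_Ico]
    have hm0' : (0 : ℤ) < m := by exact_mod_cast hm0
    exact ⟨Int.emod_nonneg _ hm0'.ne', Int.emod_lt_of_pos _ hm0'⟩
  obtain ⟨c, _, hc⟩ := Finset.exists_lt_card_fiber_of_mul_lt_card_of_maps_to hmaps hpig
  set T := S.filter (fun t => lf x z (tr A B t) % (m : ℤ) = c) with hT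
  have hTS : ∀ t ∈ T, t.1 ≤ N ∧ t.2.1 ≤ N ∧ t.2.2 ≤ N := by
    intro t ht
    have h4 := (Finset.mem_filter.mp ht).1
    rw [hS, Finset.mem_product, Finset.mem_product, Finset.mem_range, Finset.mem_range, Finset.mem_range] at h4
    omega
  have hTm : ∀ t ∈ T, ∀ t' ∈ T, cf A B x z ∣ (lf x z (tr A B t - tr A B t')) ^ 2 := by
    intro t ht t' ht'
    have h4 := (Finset.mem_filter.mp ht).2
    have h5 := (Finset.mem_filter.mp ht').2
    have h6 : (m : ℤ) ∣ lf x z (tr A B t - tr A B t') := by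
      rw [lf_sub]
      exact Int.ModEq.dvd (show lf x z (tr A B t') % (m : ℤ) = lf x z (tr A B t) % (m : ℤ) by rw [h4, h5])
    have h7 : y ∣ lf x z (tr A B t - tr A B t') := by
      rw [hm] at h6
      exact Int.natAbs_dvd.mp h6
    have h8 : y ^ 2 ∣ (lf x z (tr A B t - tr A B t')) ^ 2 := pow_dvd_pow_of_dvd h7 2
    refine Dvd.dvd.trans ⟨e, ?_⟩ h8
    rw [heq]; ring
  have hTne : T.Nonempty := Finset.card_pos.mp (by omega)
  obtain ⟨t₀, ht₀⟩ := hTne
  have hfew : ∀ r : ℂ, ‖r‖ + ‖r‖ ^ 2 ≤ H → (T.filter (fun t => ev r (tr A B t) = ev r (tr A B t₀))).card ≤ V := by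
    intro r hr'
    refine card_zero_le hΔ hxz hz hM hr' hH1 hq hqR hN1 _ ?_ ?_ ?_
    · intro t ht
      exact hTS t (Finset.mem_filter.mp ht).1
    · intro t ht t' ht'
      exact hTm t (Finset.mem_filter.mp ht).1 t' (Finset.mem_filter.mp ht').1
    · intro t ht t' ht'
      rw [(Finset.mem_filter.mp ht).2, (Finset.mem_filter.mp ht').2]
  obtain ⟨t, ht, htu, htv, htw⟩ : ∃ t ∈ T, ev u (tr A B t) ≠ ev u (tr A B t₀) ∧
      ev v (tr A B t) ≠ ev v (tr A B t₀) ∧ ev w (tr A B t) ≠ ev w (tr A B t₀) := by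
    by_contra hcon
    push Not at hcon
    have h4 : T ⊆ (T.filter (fun t => ev u (tr A B t) = ev u (tr A B t₀)) ∪
        T.filter (fun t => ev v (tr A B t) = ev v (tr A B t₀))) ∪
        T.filter (fun t => ev w (tr A B t) = ev w (tr A B t₀)) := by
      intro t ht
      by_cases e1 : ev u (tr A B t) = ev u (tr A B t₀)
      · exact Finset.mem_union_left _ (Finset.mem_union_left _ (Finset.mem_filter.mpr ⟨ht, e1⟩))
      · by_cases e2 : ev v (tr A B t) = ev v (tr A B t₀)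
        · exact Finset.mem_union_left _ (Finset.mem_union_right _ (Finset.mem_filter.mpr ⟨ht, e2⟩))
        · exact Finset.mem_union_right _ (Finset.mem_filter.mpr ⟨ht, hcon t ht e1 e2⟩)
    have h5 := Finset.card_le_card h4
    have h6 := Finset.card_union_le (T.filter (fun t => ev u (tr A B t) = ev u (tr A B t₀)) ∪
        T.filter (fun t => ev v (tr A B t) = ev v (tr A B t₀)))
        (T.filter (fun t => ev w (tr A B t) = ev w (tr A B t₀)))
    have h7 := Finset.card_union_le (T.filter (fun t => ev u (tr A B t) = ev u (tr A B t₀)))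
        (T.filter (fun t => ev v (tr A B t) = ev v (tr A B t₀)))
    have := hfew u hHu
    have := hfew v hHv
    have := hfew w hHw
    omega
  set b := tr A B t - tr A B t₀ with hb
  have hnm : nm b ≠ 0 := by
    intro h
    have h4 := nm_eq_prod h1 h2 h3 b
    rw [h, Int.cast_zero] at h4
    have h5 : ev u b * ev v b * ev w b ≠ 0 := by
      rw [hb, ev_sub, ev_sub, ev_sub]
      exact mul_ne_zero (mul_ne_zero (sub_ne_zero.mpr htu) (sub_ne_zero.mpr htv)) (sub_ne_zero.mpr htw)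
    exact h5 h4.symm
  have hbd : bd b N := by
    obtain ⟨f1, f2, f3⟩ := hTS t ht
    obtain ⟨g1, g2, g3⟩ := hTS t₀ ht₀
    rw [hb]
    refine ⟨?_, ?_, ?_⟩ <;> simp only [sub_c0, sub_c1, sub_c2, tr] <;> rw [abs_le] <;> constructor <;> omega
  obtain ⟨α, k1, k2⟩ := exists_quot hxz hM (hTm t ht t₀ ht₀)
  refine ⟨b, α, ?_, ?_, k1⟩
  · intro h
    apply hnm
    have h4 : nm b * nm b = 0 := by rw [← nm_mul, k1, nm_mul, h, mul_zero]
    simpa using h4
  · have hb2 : ∀ w' : ℤ, (w' = α.c0 ∨ w' = α.c1 ∨ w' = α.c2) → |w'| ≤ c₁ A B * K ^ 2 := by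
      intro w' hw'
      have h4 := quot_size hz hx hbd k2 hw'
      have h5 : (N : ℤ) ^ 2 ≤ K ^ 2 * |x| := by rw [← hRx]; exact_mod_cast hN1
      have h6 : |x| * |w'| ≤ |x| * (c₁ A B * K ^ 2) := by
        calc |x| * |w'| ≤ c₁ A B * N ^ 2 := h4
          _ ≤ c₁ A B * (K ^ 2 * |x|) := mul_le_mul_of_nonneg_left h5 (c₁_pos A B).le
          _ = _ := by ring
      exact le_of_mul_le_mul_left h6 hxa
    exact ⟨hb2 _ (Or.inl rfl), hb2 _ (Or.inr (Or.inl rfl)), hb2 _ (Or.inr (Or.inr rfl))⟩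

end Pool.Agent.H19.TW
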