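import Pool.Agent.H19.TW.Ring

/-!
# Two-descent by the pigeonhole principle
-/

namespace Pool.Agent.H19.TW

open Cu

/-- The binary cubic form. -/
def cf {K : Type*} [CommRing K] (A B x z : K) : K := x ^ 3 + A * (x * z ^ 2) + B * z ^ 3

variable {A B : ℤ}

/-- All coordinates are bounded by `T`. -/
def bd (a : Cu A B) (T : ℤ) : Prop := |a.c0| ≤ T ∧ |a.c1| ≤ T ∧ |a.c2| ≤ T

/-- The constant of multiplication. -/
def kp (A B : ℤ) : ℤ := 3 + 2 * |A| + 2 * |B|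

lemma kp_pos (A B : ℤ) : 0 < kp A B := by
  unfold kp
  have := abs_nonneg A
  have := abs_nonneg B
  omega

lemma bd_mul {a b : Cu A B} {S T : ℤ} (ha : bd a S) (hb : bd b T) : bd (a * b) (kp A B * (S * T)) := by
  obtain ⟨a0, a1, a2⟩ := ha
  obtain ⟨b0, b1, b2⟩ := hb
  have hS : 0 ≤ S := (abs_nonneg _).trans a0
  have hT : 0 ≤ T := (abs_nonneg _).trans b0
  have hST : 0 ≤ S * T := mul_nonneg hS hT
  have hA := abs_nonneg A
  have hB := abs_nonneg B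
  have key : ∀ {u v : ℤ}, |u| ≤ S → |v| ≤ T → |u * v| ≤ S * T := by
    intro u v hu hv
    rw [abs_mul]
    exact mul_le_mul hu hv (abs_nonneg _) hS
  have e00 := key a0 b0
  have e01 := key a0 b1
  have e02 := key a0 b2
  have e10 := key a1 b0
  have e11 := key a1 b1
  have e12 := key a1 b2
  have e20 := key a2 b0
  have e21 := key a2 b1
  have e22 := key a2 b2
  have hAm : ∀ {w : ℤ} {c : ℤ}, |w| ≤ c → |A * w| ≤ |A| * c := by
    intro w c h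
    rw [abs_mul]
    exact mul_le_mul_of_nonneg_left h hA
  have hBm : ∀ {w : ℤ} {c : ℤ}, |w| ≤ c → |B * w| ≤ |B| * c := by
    intro w c h
    rw [abs_mul]
    exact mul_le_mul_of_nonneg_left h hB
  have s12 : |a.c1 * b.c2 + a.c2 * b.c1| ≤ 2 * (S * T) := by
    have := abs_add_le (a.c1 * b.c2) (a.c2 * b.c1)
    linarith
  refine ⟨?_, ?_, ?_⟩
  · rw [mul_c0]
    have h1 := abs_sub (a.c0 * b.c0) (B * (a.c1 * b.c2 + a.c2 * b.c1))
    have h2 := hBm s12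
    unfold kp
    nlinarith
  · rw [mul_c1]
    have h1 := abs_sub (a.c0 * b.c1 + a.c1 * b.c0 - A * (a.c1 * b.c2 + a.c2 * b.c1)) (B * (a.c2 * b.c2))
    have h2 := abs_sub (a.c0 * b.c1 + a.c1 * b.c0) (A * (a.c1 * b.c2 + a.c2 * b.c1))
    have h3 := abs_add_le (a.c0 * b.c1) (a.c1 * b.c0)
    have h4 := hAm s12
    have h5 := hBm e22
    unfold kp
    nlinarith
  · rw [mul_c2]
    have h1 := abs_sub (a.c0 * b.c2 + a.c1 * b.c1 + a.c2 * b.c0) (A * (a.c2 * b.c2))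
    have h2 := abs_add_le (a.c0 * b.c2 + a.c1 * b.c1) (a.c2 * b.c0)
    have h3 := abs_add_le (a.c0 * b.c2) (a.c1 * b.c1)
    have h4 := hAm e22
    unfold kp
    nlinarith

/-- The element `x - z θ`. -/
def el (A B x z : ℤ) : Cu A B := ⟨x, -z, 0⟩

/-- The product of its other conjugates. -/
def ad (A B x z : ℤ) : Cu A B := ⟨x ^ 2 + A * z ^ 2, x * z, z ^ 2⟩

lemma el_mul_ad (x z : ℤ) : el A B x z * ad A B x z = of A B (cf A B x z) := by
  ext <;> simp only [el, ad, cf, mul_c0, mul_c1, mul_c2, of_c0, of_c1, of_c2] <;> ring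

lemma nm_el (x z : ℤ) : nm (el A B x z) = cf A B x z := by
  unfold nm el cf
  ring

/-- The linear form of the descent. -/
def lf (x z : ℤ) (b : Cu A B) : ℤ := b.c0 * z ^ 2 + b.c1 * (x * z) + b.c2 * x ^ 2

lemma lf_sub (x z : ℤ) (b b' : Cu A B) : lf x z (b - b') = lf x z b - lf x z b' := by
  unfold lf
  simp only [sub_c0, sub_c1, sub_c2]
  ring

/-- Squares of elements of the lattice are divisible by `x - z θ`. -/
lemma exists_quot {x z : ℤ} (hxz : IsCoprime x z) (hM : cf A B x z ≠ 0) {b : Cu A B}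
    (hb : cf A B x z ∣ lf x z b ^ 2) :
    ∃ α : Cu A B, b * b = el A B x z * α ∧ of A B (cf A B x z) * α = b * b * ad A B x z := by
  have hcop : IsCoprime (cf A B x z) (z ^ 4) := by
    apply IsCoprime.pow_right
    have h1 : IsCoprime (x ^ 3) z := hxz.pow_left
    have h2 : cf A B x z = x ^ 3 + z * (A * (x * z) + B * z ^ 2) := by unfold cf; ring
    rw [h2]
    exact h1.add_mul_left_left _
  have hdiv : ∀ {c : ℤ} (q w : ℤ), z ^ 4 * c = lf x z b ^ 2 * w + cf A B x z * q → cf A B x z ∣ c := by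
    intro c q w h
    apply hcop.dvd_of_dvd_mul_left
    rw [h]
    exact dvd_add (Dvd.dvd.mul_right hb _) (dvd_mul_right _ _)
  obtain ⟨α0, h0⟩ : cf A B x z ∣ (b * b * ad A B x z).c0 := by
    apply hdiv (B * b.c2 ^ 2 * z ^ 3 - 2 * b.c0 * b.c1 * z ^ 3 - 2 * b.c0 * b.c2 * x * z ^ 2 -
      2 * b.c1 * b.c2 * x ^ 2 * z - b.c1 ^ 2 * x * z ^ 2 - b.c2 ^ 2 * x ^ 3) (x ^ 2 + A * z ^ 2)
    simp only [lf, cf, ad, mul_c0, mul_c1, mul_c2]
    ring
  obtain ⟨α1, h1⟩ : cf A B x z ∣ (b * b * ad A B x z).c1 := by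
    apply hdiv (A * b.c2 ^ 2 * z ^ 3 - 2 * b.c0 * b.c2 * z ^ 3 - 2 * b.c1 * b.c2 * x * z ^ 2 -
      b.c1 ^ 2 * z ^ 3 - b.c2 ^ 2 * x ^ 2 * z) (x * z)
    simp only [lf, cf, ad, mul_c0, mul_c1, mul_c2]
    ring
  obtain ⟨α2, h2⟩ : cf A B x z ∣ (b * b * ad A B x z).c2 := by
    apply hdiv (-2 * b.c1 * b.c2 * z ^ 3 - b.c2 ^ 2 * x * z ^ 2) (z ^ 2)
    simp only [lf, cf, ad, mul_c0, mul_c1, mul_c2]
    ring
  have hα : of A B (cf A B x z) * ⟨α0, α1, α2⟩ = b * b * ad A B x z := by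
    ext
    · rw [of_mul_c0, h0]
    · rw [of_mul_c1, h1]
    · rw [of_mul_c2, h2]
  refine ⟨⟨α0, α1, α2⟩, ?_, hα⟩
  have h3 : of A B (cf A B x z) * (b * b - el A B x z * ⟨α0, α1, α2⟩) = 0 := by
    rw [mul_sub]
    linear_combination (-(b * b)) * (el_mul_ad (A := A) (B := B) x z) - (el A B x z) * hα
  exact sub_eq_zero.mp (eq_zero_of_of_mul hM h3)

lemma sq_ne_zero_int (hΔ : 4 * A ^ 3 + 27 * B ^ 2 ≠ 0) {b : Cu A B} (hb : b ≠ 0) : b * b ≠ 0 := by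
  intro h
  apply hb
  have hQ : 4 * (A : ℚ) ^ 3 + 27 * (B : ℚ) ^ 2 ≠ 0 := by exact_mod_cast hΔ
  have h1 : (⟨b.c0, b.c1, b.c2⟩ : Cu (A : ℚ) (B : ℚ)) * ⟨b.c0, b.c1, b.c2⟩ = 0 := by
    have g0 := congrArg c0 h
    have g1 := congrArg c1 h
    have g2 := congrArg c2 h
    simp only [mul_c0, mul_c1, mul_c2, zero_c0, zero_c1, zero_c2] at g0 g1 g2
    ext
    · simp only [mul_c0, zero_c0]; exact_mod_cast g0
    · simp only [mul_c1, zero_c1]; exact_mod_cast g1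
    · simp only [mul_c2, zero_c2]; exact_mod_cast g2
  have h2 := eq_zero_of_sq hQ h1
  have g0 := congrArg c0 h2
  have g1 := congrArg c1 h2
  have g2 := congrArg c2 h2
  simp only [zero_c0, zero_c1, zero_c2, Int.cast_eq_zero] at g0 g1 g2
  ext
  · exact g0
  · exact g1
  · exact g2

/-- Sizes of the cubic form. -/
lemma cf_size {x z : ℤ} (hz : (2 * (|A| + |B|) + 1) * |z| ≤ |x|) :
    |x| ^ 3 ≤ 2 * |cf A B x z| ∧ 2 * |cf A B x z| ≤ 3 * |x| ^ 3 := by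
  have hA := abs_nonneg A
  have hB := abs_nonneg B
  have hz0 := abs_nonneg z
  have hx0 := abs_nonneg x
  have hzx : |z| ≤ |x| := by nlinarith [mul_nonneg hA hz0, mul_nonneg hB hz0]
  set K := |A| + |B| with hK
  have hK0 : 0 ≤ K := by positivity
  have h1 : |A * (x * z ^ 2) + B * z ^ 3| ≤ K * |z| * |x| ^ 2 := by
    have h2 : |A * (x * z ^ 2)| ≤ |A| * |z| * |x| ^ 2 := by
      rw [abs_mul, abs_mul, abs_pow]
      have h3 : |x| * |z| ^ 2 ≤ |z| * |x| ^ 2 := by nlinarith [mul_nonneg hx0 hz0]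
      calc |A| * (|x| * |z| ^ 2) ≤ |A| * (|z| * |x| ^ 2) := mul_le_mul_of_nonneg_left h3 hA
        _ = _ := by ring
    have h4 : |B * z ^ 3| ≤ |B| * |z| * |x| ^ 2 := by
      rw [abs_mul, abs_pow]
      have h3 : |z| ^ 3 ≤ |z| * |x| ^ 2 := by
        have : |z| ^ 2 ≤ |x| ^ 2 := pow_le_pow_left₀ hz0 hzx 2
        calc |z| ^ 3 = |z| * |z| ^ 2 := by ring
          _ ≤ |z| * |x| ^ 2 := mul_le_mul_of_nonneg_left this hz0
      calc |B| * |z| ^ 3 ≤ |B| * (|z| * |x| ^ 2) := mul_le_mul_of_nonneg_left h3 hB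
        _ = _ := by ring
    calc |A * (x * z ^ 2) + B * z ^ 3| ≤ |A * (x * z ^ 2)| + |B * z ^ 3| := abs_add_le _ _
      _ ≤ |A| * |z| * |x| ^ 2 + |B| * |z| * |x| ^ 2 := add_le_add h2 h4
      _ = K * |z| * |x| ^ 2 := by rw [hK]; ring
  have h2 : 2 * (K * |z|) ≤ |x| := by nlinarith
  have h3 : 2 * (K * |z| * |x| ^ 2) ≤ |x| ^ 3 := by
    calc 2 * (K * |z| * |x| ^ 2) = 2 * (K * |z|) * |x| ^ 2 := by ring
      _ ≤ |x| * |x| ^ 2 := mul_le_mul_of_nonneg_right h2 (by positivity)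
      _ = |x| ^ 3 := by ring
  have e : cf A B x z = x ^ 3 + (A * (x * z ^ 2) + B * z ^ 3) := by unfold cf; ring
  have e3 : |x ^ 3| = |x| ^ 3 := abs_pow _ _
  constructor
  · have := abs_sub_abs_le_abs_sub (x ^ 3) (-(A * (x * z ^ 2) + B * z ^ 3))
    rw [abs_neg, sub_neg_eq_add, ← e, e3] at this
    linarith
  · have := abs_add_le (x ^ 3) (A * (x * z ^ 2) + B * z ^ 3)
    rw [← e, e3] at this
    linarith

/-- The constant of the lattice. -/
def c₁ (A B : ℤ) : ℤ := 2 * kp A B ^ 2 * (1 + |A|)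

lemma c₁_pos (A B : ℤ) : 0 < c₁ A B := by
  unfold c₁
  have := kp_pos A B
  have := abs_nonneg A
  positivity

lemma bd_ad {x z : ℤ} (hzx : |z| ≤ |x|) : bd (ad A B x z) ((1 + |A|) * |x| ^ 2) := by
  have hA := abs_nonneg A
  have hz0 := abs_nonneg z
  have hx0 := abs_nonneg x
  have h1 : |z| ^ 2 ≤ |x| ^ 2 := pow_le_pow_left₀ hz0 hzx 2
  have h2 : 0 ≤ |A| * |x| ^ 2 := by positivity
  unfold ad
  refine ⟨?_, ?_, ?_⟩
  · show |x ^ 2 + A * z ^ 2| ≤ _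
    have h3 := abs_add_le (x ^ 2) (A * z ^ 2)
    rw [abs_mul, abs_pow, abs_pow] at h3
    have h4 : |A| * |z| ^ 2 ≤ |A| * |x| ^ 2 := mul_le_mul_of_nonneg_left h1 hA
    linarith
  · show |x * z| ≤ _
    rw [abs_mul]
    nlinarith [mul_le_mul_of_nonneg_left hzx hx0]
  · show |z ^ 2| ≤ _
    rw [abs_pow]
    linarith

lemma quot_size {x z : ℤ} (hz : (2 * (|A| + |B|) + 1) * |z| ≤ |x|) (hx : x ≠ 0) {b α : Cu A B} {T : ℤ}
    (hb : bd b T) (h : of A B (cf A B x z) * α = b * b * ad A B x z) {w : ℤ}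
    (hw : w = α.c0 ∨ w = α.c1 ∨ w = α.c2) : |x| * |w| ≤ c₁ A B * T ^ 2 := by
  have hA := abs_nonneg A
  have hB := abs_nonneg B
  have hz0 := abs_nonneg z
  have hx1 : 0 < |x| := abs_pos.mpr hx
  have hzx : |z| ≤ |x| := by nlinarith [mul_nonneg hA hz0, mul_nonneg hB hz0]
  have h1 := bd_mul (bd_mul hb hb) (bd_ad (A := A) (B := B) hzx)
  rw [← h] at h1
  have h2 : |cf A B x z| * |w| ≤ kp A B * (kp A B * (T * T) * ((1 + |A|) * |x| ^ 2)) := by
    obtain ⟨g0, g1, g2⟩ := h1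
    rw [of_mul_c0, abs_mul] at g0
    rw [of_mul_c1, abs_mul] at g1
    rw [of_mul_c2, abs_mul] at g2
    rcases hw with rfl | rfl | rfl
    · exact g0
    · exact g1
    · exact g2
  obtain ⟨h3, _⟩ := cf_size (A := A) (B := B) hz
  have h4 : |x| ^ 2 * (|x| * |w|) ≤ |x| ^ 2 * (c₁ A B * T ^ 2) := by
    calc |x| ^ 2 * (|x| * |w|) = |x| ^ 3 * |w| := by ring
      _ ≤ 2 * |cf A B x z| * |w| := mul_le_mul_of_nonneg_right h3 (abs_nonneg _)
      _ = 2 * (|cf A B x z| * |w|) := by ring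
      _ ≤ 2 * (kp A B * (kp A B * (T * T) * ((1 + |A|) * |x| ^ 2))) := by linarith
      _ = |x| ^ 2 * (c₁ A B * T ^ 2) := by unfold c₁; ring
  exact le_of_mul_le_mul_left h4 (by positivity)

/-- Nonzero elements of the lattice are not small. -/
lemma lattice_min (hΔ : 4 * A ^ 3 + 27 * B ^ 2 ≠ 0) {x z : ℤ} (hxz : IsCoprime x z)
    (hz : (2 * (|A| + |B|) + 1) * |z| ≤ |x|) (hx : x ≠ 0) (hM : cf A B x z ≠ 0) {b : Cu A B}
    (hb : cf A B x z ∣ lf x z b ^ 2) (hb0 : b ≠ 0) {T : ℤ} (hT : bd b T) : |x| ≤ c₁ A B * T ^ 2 := by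
  obtain ⟨α, h1, h2⟩ := exists_quot hxz hM hb
  have hα : α ≠ 0 := by
    rintro rfl
    exact sq_ne_zero_int hΔ hb0 (by rw [h1, mul_zero])
  obtain ⟨w, hw, hw0⟩ : ∃ w, (w = α.c0 ∨ w = α.c1 ∨ w = α.c2) ∧ w ≠ 0 := by
    by_contra hcon
    push Not at hcon
    apply hα
    ext
    · exact hcon _ (Or.inl rfl)
    · exact hcon _ (Or.inr (Or.inl rfl))
    · exact hcon _ (Or.inr (Or.inr rfl))
  have h3 := quot_size hz hx hT h2 hw
  have h4 := Int.one_le_abs hw0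
  nlinarith [abs_nonneg x]

end Pool.Agent.H19.TW
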