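import Pool.Agent.H19.FS.KeyN
import Pool.Agent.H19.FO.Hall

/-!
# Pairs of binary quartic forms
-/

namespace Pool.Agent.H19.TW

open Polynomial Pool.Agent.H19.FO Pool.Agent.H19.FS

/-- Quartic polynomials. -/
noncomputable def qp (a4 a3 a2 a1 a0 : ℤ) : ℤ[X] :=
  C a4 * X ^ 4 + C a3 * X ^ 3 + C a2 * X ^ 2 + C a1 * X + C a0

/-- Binary quartic forms. -/
def qf {K : Type*} [CommRing K] (a4 a3 a2 a1 a0 s t : K) : K :=
  a4 * s ^ 4 + a3 * (s ^ 3 * t) + a2 * (s ^ 2 * t ^ 2) + a1 * (s * t ^ 3) + a0 * t ^ 4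

lemma qp_coeff (a4 a3 a2 a1 a0 : ℤ) : (qp a4 a3 a2 a1 a0).coeff 0 = a0 ∧ (qp a4 a3 a2 a1 a0).coeff 1 = a1 ∧
    (qp a4 a3 a2 a1 a0).coeff 2 = a2 ∧ (qp a4 a3 a2 a1 a0).coeff 3 = a3 ∧ (qp a4 a3 a2 a1 a0).coeff 4 = a4 := by
  unfold qp
  refine ⟨?_, ?_, ?_, ?_, ?_⟩ <;>
    simp only [coeff_add, coeff_C_mul, coeff_X_pow, coeff_X, coeff_C] <;> norm_num

lemma qp_natDegree (a4 a3 a2 a1 a0 : ℤ) : (qp a4 a3 a2 a1 a0).natDegree ≤ 4 := by
  unfold qp
  compute_degree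

lemma val_qp (a4 a3 a2 a1 a0 s t : ℤ) : val (qp a4 a3 a2 a1 a0) 4 s t = qf a4 a3 a2 a1 a0 s t := by
  rw [val_eq_sum]
  simp only [Finset.sum_range_succ, Finset.sum_range_zero]
  obtain ⟨h0, h1, h2, h3, h4⟩ := qp_coeff a4 a3 a2 a1 a0
  rw [h0, h1, h2, h3, h4]
  unfold qf
  ring

lemma aeval_qp (a4 a3 a2 a1 a0 : ℤ) (u : ℂ) : aeval u (ra (qp a4 a3 a2 a1 a0)) =
    qf (a4 : ℂ) a3 a2 a1 a0 u 1 := by
  unfold qp qf ra
  simp

lemma aeval_derivative_qp (a4 a3 a2 a1 a0 : ℤ) (u : ℂ) : aeval u (derivative (ra (qp a4 a3 a2 a1 a0))) =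
    4 * a4 * u ^ 3 + 3 * a3 * u ^ 2 + 2 * a2 * u + a1 := by
  unfold qp ra
  simp
  ring

/-- The bound for a pair of quartic forms. -/
theorem quartic_bound {a4 a3 a2 a1 a0 b4 b3 b2 b1 b0 : ℤ}
    (hA : ∀ s t : ℂ, ¬ (s = 0 ∧ t = 0) → ¬ (qf (a4 : ℂ) a3 a2 a1 a0 s t = 0 ∧ qf (b4 : ℂ) b3 b2 b1 b0 s t = 0))
    (hB : ∀ s t : ℂ, ¬ (s = 0 ∧ t = 0) → ¬ (qf (b4 : ℂ) b3 b2 b1 b0 s t = 0 ∧
      4 * b4 * s ^ 3 + 3 * b3 * s ^ 2 * t + 2 * b2 * s * t ^ 2 + b1 * t ^ 3 = 0 ∧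
      b3 * s ^ 3 + 2 * b2 * s ^ 2 * t + 3 * b1 * s * t ^ 2 + 4 * b0 * t ^ 3 = 0)) (N : ℕ) :
    ∃ C : ℝ, 0 < C ∧ ∀ s t x z m : ℤ, ¬ (s = 0 ∧ t = 0) → m ≠ 0 → IsCoprime x z → z ≠ 0 →
      m * x = qf a4 a3 a2 a1 a0 s t → m * z = qf b4 b3 b2 b1 b0 s t →
      |(x : ℝ)| ^ (2 * N + 1) ≤ C * |(z : ℝ)| ^ (4 * N + 4) := by
  set F := qp a4 a3 a2 a1 a0 with hF
  set G := qp b4 b3 b2 b1 b0 with hG
  obtain ⟨hF0, hF1, hF2, hF3, hF4⟩ := qp_coeff a4 a3 a2 a1 a0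
  obtain ⟨hG0, hG1, hG2, hG3, hG4⟩ := qp_coeff b4 b3 b2 b1 b0
  rw [← hF] at hF0 hF1 hF2 hF3 hF4
  rw [← hG] at hG0 hG1 hG2 hG3 hG4
  have hdF : F.natDegree ≤ 4 := qp_natDegree _ _ _ _ _
  have hdG : G.natDegree ≤ 4 := qp_natDegree _ _ _ _ _
  have hcop : IsCoprime (ra F) (ra G) := by
    rw [Polynomial.isCoprime_iff_aeval_ne_zero_of_isAlgClosed ℚ ℂ]
    intro u
    by_contra hcon
    push Not at hcon
    rw [hF, hG, aeval_qp, aeval_qp] at hcon
    exact hA u 1 (fun h => one_ne_zero h.2) hcon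
  have hmax : F.coeff 4 ≠ 0 ∨ G.coeff 4 ≠ 0 := by
    by_contra hcon
    push Not at hcon
    rw [hF4, hG4] at hcon
    apply hA 1 0 (fun h => one_ne_zero h.1)
    unfold qf
    rw [hcon.1, hcon.2]
    simp
  have hsep : IsCoprime (ra G) (derivative (ra G)) := by
    rw [Polynomial.isCoprime_iff_aeval_ne_zero_of_isAlgClosed ℚ ℂ]
    intro u
    by_contra hcon
    push Not at hcon
    rw [hG, aeval_qp, aeval_derivative_qp] at hcon
    obtain ⟨h1, h2⟩ := hcon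
    refine hB u 1 (fun h => one_ne_zero h.2) ⟨h1, by linear_combination h2, ?_⟩
    unfold qf at h1
    linear_combination 4 * h1 - u * h2
  have hdG3 : 3 ≤ G.natDegree := by
    by_contra hcon
    push Not at hcon
    have h4 : G.coeff 4 = 0 := coeff_eq_zero_of_natDegree_lt (by omega)
    have h3 : G.coeff 3 = 0 := coeff_eq_zero_of_natDegree_lt (by omega)
    rw [hG4] at h4
    rw [hG3] at h3
    apply hB 1 0 (fun h => one_ne_zero h.1)
    unfold qf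
    rw [h4, h3]
    simp
  have hdrG : (ra G).natDegree = G.natDegree := natDegree_map_eq_of_injective (RingHom.injective_int _) G
  have hG0' : ra G ≠ 0 := by
    intro h
    rw [h, natDegree_zero] at hdrG
    omega
  obtain ⟨a, ha, hkey⟩ := keyN (B := ra G) hG0' (d := 4) (N := N + 1) (M := 2 * N + 1) (Nat.succ_pos N)
    (by omega) (by rw [hdrG]; exact hdG) ⟨by rw [hdrG]; nlinarith, by
      intro p hp _ e hpe
      have hm : 0 < p.natDegree := hp.natDegree_pos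
      have he : e ≤ 1 := by
        by_contra hcon
        have h4 : p ^ 2 ∣ ra G := (pow_dvd_pow p (by omega)).trans hpe
        have h5 : p ∣ ra G := (dvd_pow_self p (by norm_num)).trans h4
        have h6 : p ∣ derivative (ra G) := by
          obtain ⟨q, hq⟩ := h4
          rw [hq, derivative_mul, derivative_pow]
          apply dvd_add
          · apply Dvd.dvd.mul_right
            apply Dvd.dvd.mul_right
            apply Dvd.dvd.mul_left
            simp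
          · apply Dvd.dvd.mul_right
            exact dvd_pow_self p (by norm_num)
        exact hp.not_isUnit (hsep.isUnit_of_dvd' h5 h6)
      constructor
      · intro h4
        have : 2 ≤ 4 - e * p.natDegree := by
          have : e * p.natDegree ≤ 1 * 2 := Nat.mul_le_mul he h4
          omega
        nlinarith
      · intro _ he0
        have : e = 1 := by omega
        subst this
        simp; omega⟩
  obtain ⟨T, hT, hgcd⟩ := common_divisor hdF hdG hmax hcop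
  obtain ⟨M, hM, hup⟩ := upper F 4
  set τ : ℝ := |(T : ℝ)| with hτ
  have hτ1 : (1 : ℝ) ≤ τ := by
    have := Int.one_le_abs hT
    rw [hτ]; exact_mod_cast this
  refine ⟨M ^ (2 * N + 1) * (τ ^ (N + 1) / a) ^ 4, by positivity, ?_⟩
  intro s t x z m hst hm hxz hz hx1 hz1
  -- coprime parameters
  obtain ⟨g, s', t', hg, hs', ht', hst'⟩ := split_gcd s t hst
  have hst0 : ¬ (s' = 0 ∧ t' = 0) := by
    rintro ⟨h1, h2⟩
    apply hst
    rw [hs', ht', h1, h2]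
    simp
  set X' := qf a4 a3 a2 a1 a0 s' t' with hX'
  set Z' := qf b4 b3 b2 b1 b0 s' t' with hZ'
  have hx2 : m * x = g ^ 4 * X' := by
    rw [hx1, hs', ht', hX']; unfold qf; ring
  have hz2 : m * z = g ^ 4 * Z' := by
    rw [hz1, hs', ht', hZ']; unfold qf; ring
  obtain ⟨u, v, huv⟩ := hxz
  have hm2 : m = g ^ 4 * (u * X' + v * Z') := by
    linear_combination (-m) * huv + u * hx2 + v * hz2
  set k := u * X' + v * Z' with hk
  have hg4 : g ^ 4 ≠ 0 := pow_ne_zero 4 hg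
  have hx3 : k * x = X' := by
    apply mul_left_cancel₀ hg4
    linear_combination hx2 - x * hm2
  have hz3 : k * z = Z' := by
    apply mul_left_cancel₀ hg4
    linear_combination hz2 - z * hm2
  have hk0 : k ≠ 0 := by
    intro h
    apply hm
    rw [hm2, h, mul_zero]
  have hvF : val F 4 s' t' = X' := by rw [hF, val_qp]
  have hvG : val G 4 s' t' = Z' := by rw [hG, val_qp]
  have hkT : k ∣ T := hgcd s' t' hst' k (by rw [hvF, ← hx3]; exact dvd_mul_right _ _)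
    (by rw [hvG, ← hz3]; exact dvd_mul_right _ _)
  have hkτ : |(k : ℝ)| ≤ τ := by
    have : |k| ≤ |T| := Int.le_of_dvd (abs_pos.mpr hT) ((abs_dvd_abs k T).mpr hkT)
    rw [hτ]; exact_mod_cast this
  have hk1 : (1 : ℝ) ≤ |(k : ℝ)| := by
    have := Int.one_le_abs hk0
    exact_mod_cast this
  have hH1 := ht_ge_one hst0
  set H := ht s' t' with hH
  have hmap : ((val G 4 s' t' : ℤ) : ℝ) = val (re (ra G)) 4 (s' : ℝ) (t' : ℝ) := by
    have h1 := map_val (Int.castRingHom ℝ) G 4 s' t'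
    have h2 : re (ra G) = G.map (Int.castRingHom ℝ) := by
      unfold re ra
      rw [Polynomial.map_map]
      congr 1
    rw [h2]
    simpa using h1
  have hZ0 : Z' ≠ 0 := by
    rw [← hz3]; exact mul_ne_zero hk0 hz
  have hkey1 := hkey s' t' hst0 (by rw [← hmap, hvG]; exact_mod_cast hZ0)
  rw [← hmap, hvG, ← hH] at hkey1
  have hZb : |((Z' : ℤ) : ℝ)| ≤ τ * |(z : ℝ)| := by
    rw [← hz3]; push_cast
    rw [abs_mul]
    exact mul_le_mul_of_nonneg_right hkτ (abs_nonneg _)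
  have h1 : H ^ (2 * N + 1) ≤ τ ^ (N + 1) / a * |(z : ℝ)| ^ (N + 1) := by
    rw [div_mul_eq_mul_div, le_div_iff₀ ha, ← mul_pow, mul_comm]
    exact hkey1.trans (pow_le_pow_left₀ (abs_nonneg _) hZb _)
  have h2 : |(x : ℝ)| ≤ M * H ^ 4 := by
    have h3 := hup s' t'
    rw [hvF, ← hx3] at h3
    push_cast at h3
    rw [abs_mul] at h3
    calc |(x : ℝ)| = 1 * |(x : ℝ)| := (one_mul _).symm
      _ ≤ |(k : ℝ)| * |(x : ℝ)| := mul_le_mul_of_nonneg_right hk1 (abs_nonneg _)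
      _ ≤ _ := h3
  calc |(x : ℝ)| ^ (2 * N + 1) ≤ (M * H ^ 4) ^ (2 * N + 1) := pow_le_pow_left₀ (abs_nonneg _) h2 _
    _ = M ^ (2 * N + 1) * (H ^ (2 * N + 1)) ^ 4 := by rw [mul_pow, ← pow_mul, ← pow_mul, mul_comm 4]
    _ ≤ M ^ (2 * N + 1) * (τ ^ (N + 1) / a * |(z : ℝ)| ^ (N + 1)) ^ 4 := by
        gcongr
    _ = _ := by
        rw [mul_pow, ← pow_mul, mul_assoc]
        congr 3
        ring

end Pool.Agent.H19.TW
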