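import Pool.Agent.H19.TW.Lin
import Pool.Agent.H19.TW.Quartic

/-!
# The bound for a fixed conic
-/

namespace Pool.Agent.H19.TW

open Cu

section

variable {K : Type*} [CommRing K] {A B : K}

/-- The coefficients of `g P(s, t) ^ 2`. -/
def w3 (g p q : Cu A B) : Cu A B := g * (p * q) + g * (p * q)

/-- The middle coefficient of `g P(s, t) ^ 2`. -/
def w2 (g p q r : Cu A B) : Cu A B := g * (q * q) + (g * (p * r) + g * (p * r))

lemma sq_c0 (g p q r : Cu A B) (s t : K) : (g * (pt p q r s t * pt p q r s t)).c0 =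
    qf (g * (p * p)).c0 (w3 g p q).c0 (w2 g p q r).c0 (w3 g q r).c0 (g * (r * r)).c0 s t := by
  simp only [qf, w3, w2, pt, mul_c0, mul_c1, mul_c2, add_c0]
  ring

lemma sq_c1 (g p q r : Cu A B) (s t : K) : (g * (pt p q r s t * pt p q r s t)).c1 =
    qf (g * (p * p)).c1 (w3 g p q).c1 (w2 g p q r).c1 (w3 g q r).c1 (g * (r * r)).c1 s t := by
  simp only [qf, w3, w2, pt, mul_c0, mul_c1, mul_c2, add_c1]
  ring

lemma sq_c2 (g p q r : Cu A B) (s t : K) : (g * (pt p q r s t * pt p q r s t)).c2 =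
    qf (g * (p * p)).c2 (w3 g p q).c2 (w2 g p q r).c2 (w3 g q r).c2 (g * (r * r)).c2 s t := by
  simp only [qf, w3, w2, pt, mul_c0, mul_c1, mul_c2, add_c2]
  ring

/-- The partial derivatives of a quartic form. -/
def qs (a4 a3 a2 a1 s t : K) : K := 4 * a4 * s ^ 3 + 3 * a3 * s ^ 2 * t + 2 * a2 * s * t ^ 2 + a1 * t ^ 3

lemma ds_c1 (g p q r : Cu A B) (s t : K) : 2 * (g * (pt p q r s t * ps p q s t)).c1 =
    qs (g * (p * p)).c1 (w3 g p q).c1 (w2 g p q r).c1 (w3 g q r).c1 s t := by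
  simp only [qs, w3, w2, pt, ps, mul_c0, mul_c1, mul_c2, add_c1]
  ring

lemma ds_c2 (g p q r : Cu A B) (s t : K) : 2 * (g * (pt p q r s t * ps p q s t)).c2 =
    qs (g * (p * p)).c2 (w3 g p q).c2 (w2 g p q r).c2 (w3 g q r).c2 s t := by
  simp only [qs, w3, w2, pt, ps, mul_c0, mul_c1, mul_c2, add_c2]
  ring

lemma dt_c1 (g p q r : Cu A B) (s t : K) : 2 * (g * (pt p q r s t * ps r q t s)).c1 =
    qs (g * (r * r)).c1 (w3 g q r).c1 (w2 g p q r).c1 (w3 g p q).c1 t s := by
  simp only [qs, w3, w2, pt, ps, mul_c0, mul_c1, mul_c2, add_c1]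
  ring

lemma dt_c2 (g p q r : Cu A B) (s t : K) : 2 * (g * (pt p q r s t * ps r q t s)).c2 =
    qs (g * (r * r)).c2 (w3 g q r).c2 (w2 g p q r).c2 (w3 g p q).c2 t s := by
  simp only [qs, w3, w2, pt, ps, mul_c0, mul_c1, mul_c2, add_c2]
  ring

end

/-- Base change to the complex numbers. -/
noncomputable def cz {A B : ℤ} (a : Cu A B) : Cu (A : ℂ) (B : ℂ) := ⟨a.c0, a.c1, a.c2⟩

lemma cz_mul {A B : ℤ} (a b : Cu A B) : cz (a * b) = cz a * cz b := by
  ext <;> simp [cz]

lemma cz_add {A B : ℤ} (a b : Cu A B) : cz (a + b) = cz a + cz b := by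
  ext <;> simp [cz]

lemma nm_cz {A B : ℤ} (a : Cu A B) : nm (cz a) = ((nm a : ℤ) : ℂ) := by
  simp [cz, nm]

lemma dt_cz {A B : ℤ} (p q r : Cu A B) : dt (cz p) (cz q) (cz r) = ((dt p q r : ℤ) : ℂ) := by
  simp [cz, dt, det3]

/-- The bound for a fixed conic. -/
theorem forms_bound {A B : ℤ} (hΔ : 4 * A ^ 3 + 27 * B ^ 2 ≠ 0) {g : Cu A B} (hg : nm g ≠ 0) {n : ℤ}
    (hn : n ≠ 0) (N : ℕ) :
    ∃ C : ℝ, 0 < C ∧ ∀ (x z : ℤ) (b : Cu A B), IsCoprime x z → z ≠ 0 →
      g * (b * b) = of A B n * ⟨x, -z, 0⟩ → |(x : ℝ)| ^ (2 * N + 1) ≤ C * |(z : ℝ)| ^ (4 * N + 4) := by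
  have hq : ∀ b : Cu A B, q3 g.c2 (g.c0 - A * g.c2) (-A * (g.c0 - A * g.c2) - B * g.c1) (2 * g.c1)
      (2 * (g.c0 - A * g.c2)) (-2 * A * g.c1 - 2 * B * g.c2) b.c0 b.c1 b.c2 = (g * (b * b)).c2 := by
    intro b
    simp only [q3, mul_c0, mul_c1, mul_c2]
    ring
  have hp : ∀ b c : Cu A B, p3 g.c2 (g.c0 - A * g.c2) (-A * (g.c0 - A * g.c2) - B * g.c1) (2 * g.c1)
      (2 * (g.c0 - A * g.c2)) (-2 * A * g.c1 - 2 * B * g.c2) b.c0 b.c1 b.c2 c.c0 c.c1 c.c2 =
      (w3 g b c).c2 := by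
    intro b c
    simp only [p3, w3, mul_c0, mul_c1, mul_c2, add_c2]
    ring
  by_cases hex : ∃ b : Cu A B, b ≠ 0 ∧ (g * (b * b)).c2 = 0
  · obtain ⟨β, hβ, hβ2⟩ := hex
    obtain ⟨p0, p1, p2, q0, q1, q2, r0, r1, r2, hgood⟩ := conic (a := g.c2) (b := g.c0 - A * g.c2)
      (c := -A * (g.c0 - A * g.c2) - B * g.c1) (d := 2 * g.c1) (e := 2 * (g.c0 - A * g.c2))
      (f := -2 * A * g.c1 - 2 * B * g.c2) (X0 := β.c0) (Y0 := β.c1) (Z0 := β.c2)
      (by
        intro h
        apply hg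
        have : 4 * nm g = 0 := by
          unfold disc3 at h
          unfold nm
          linear_combination -h
        simpa using this)
      (by
        rintro ⟨h1, h2, h3⟩
        apply hβ
        ext
        · exact h1
        · exact h2
        · exact h3) (by rw [hq β]; exact hβ2)
    obtain ⟨hdet, g1, g2, g3, g4, g5, hcov⟩ := hgood
    set p : Cu A B := ⟨p0, p1, p2⟩ with hpdef
    set q : Cu A B := ⟨q0, q1, q2⟩ with hqdef
    set r : Cu A B := ⟨r0, r1, r2⟩ with hrdef
    have k4 : (g * (p * p)).c2 = 0 := by rw [← hq p]; exact g1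
    have k3 : (w3 g p q).c2 = 0 := by rw [← hp p q]; exact g2
    have k2 : (w2 g p q r).c2 = 0 := by
      have h1 := hq q
      have h2 := hp p r
      have h3 : (w2 g p q r).c2 = (g * (q * q)).c2 + (w3 g p r).c2 := by
        simp only [w2, w3, add_c2]
      rw [h3, ← h1, ← h2]; exact g3
    have k1 : (w3 g q r).c2 = 0 := by rw [← hp q r]; exact g4
    have k0 : (g * (r * r)).c2 = 0 := by rw [← hq r]; exact g5
    have hdt : dt p q r ≠ 0 := hdet
    -- complex versions
    have hΔC : 4 * (A : ℂ) ^ 3 + 27 * (B : ℂ) ^ 2 ≠ 0 := by exact_mod_cast hΔ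
    have hgC : nm (cz g) ≠ 0 := by rw [nm_cz]; exact_mod_cast hg
    have hdtC : dt (cz p) (cz q) (cz r) ≠ 0 := by rw [dt_cz]; exact_mod_cast hdt
    have e4 : cz g * (cz p * cz p) = cz (g * (p * p)) := by rw [cz_mul, cz_mul]
    have e3 : w3 (cz g) (cz p) (cz q) = cz (w3 g p q) := by unfold w3; rw [cz_add, cz_mul, cz_mul]
    have e2 : w2 (cz g) (cz p) (cz q) (cz r) = cz (w2 g p q r) := by
      unfold w2; rw [cz_add, cz_add, cz_mul, cz_mul, cz_mul, cz_mul]
    have e1 : w3 (cz g) (cz q) (cz r) = cz (w3 g q r) := by unfold w3; rw [cz_add, cz_mul, cz_mul]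
    have e0 : cz g * (cz r * cz r) = cz (g * (r * r)) := by rw [cz_mul, cz_mul]
    have hc2 : ∀ s t : ℂ, (cz g * (pt (cz p) (cz q) (cz r) s t * pt (cz p) (cz q) (cz r) s t)).c2 = 0 := by
      intro s t
      rw [sq_c2, e4, e3, e2, e1, e0]
      simp only [cz, k4, k3, k2, k1, k0, qf]
      simp
    obtain ⟨C, hC, hb⟩ := quartic_bound
      (a4 := (g * (p * p)).c0) (a3 := (w3 g p q).c0) (a2 := (w2 g p q r).c0) (a1 := (w3 g q r).c0)
      (a0 := (g * (r * r)).c0)
      (b4 := (g * (p * p)).c1) (b3 := (w3 g p q).c1) (b2 := (w2 g p q r).c1) (b1 := (w3 g q r).c1)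
      (b0 := (g * (r * r)).c1)
      (by
        rintro s t hst ⟨h1, h2⟩
        apply hst
        apply no_common hΔC hgC hdtC
        ext
        · rw [sq_c0, e4, e3, e2, e1, e0]; exact h1
        · rw [sq_c1, e4, e3, e2, e1, e0]; exact h2
        · exact hc2 s t)
      (by
        rintro s t hst ⟨h1, h2, h3⟩
        apply hst
        have hh : cz g * (pt (cz p) (cz q) (cz r) s t * pt (cz p) (cz q) (cz r) s t) =
            of _ _ (cz g * (pt (cz p) (cz q) (cz r) s t * pt (cz p) (cz q) (cz r) s t)).c0 := by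
          ext
          · rfl
          · rw [sq_c1, e4, e3, e2, e1, e0]; exact h1
          · exact hc2 s t
        refine no_multiple hΔC hgC hdtC hh
          (k := (cz g * (pt (cz p) (cz q) (cz r) s t * ps (cz p) (cz q) s t)).c0)
          (k' := (cz g * (pt (cz p) (cz q) (cz r) s t * ps (cz r) (cz q) t s)).c0) ?_ ?_
        · ext
          · rfl
          · have := ds_c1 (cz g) (cz p) (cz q) (cz r) s t
            rw [e4, e3, e2, e1] at this
            have h4 : qs (cz (g * (p * p))).c1 (cz (w3 g p q)).c1 (cz (w2 g p q r)).c1 (cz (w3 g q r)).c1 s t = 0 := h2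
            rw [h4] at this
            exact (mul_eq_zero.mp this).resolve_left two_ne_zero
          · have := ds_c2 (cz g) (cz p) (cz q) (cz r) s t
            rw [e4, e3, e2, e1] at this
            have h4 : qs (cz (g * (p * p))).c2 (cz (w3 g p q)).c2 (cz (w2 g p q r)).c2 (cz (w3 g q r)).c2 s t = 0 := by
              simp only [cz, k4, k3, k2, k1, qs]
              simp
            rw [h4] at this
            exact (mul_eq_zero.mp this).resolve_left two_ne_zero
        · ext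
          · rfl
          · have := dt_c1 (cz g) (cz p) (cz q) (cz r) s t
            rw [e3, e2, e1, e0] at this
            have h4 : qs (cz (g * (r * r))).c1 (cz (w3 g q r)).c1 (cz (w2 g p q r)).c1 (cz (w3 g p q)).c1 t s = 0 := by
              unfold qs
              simp only [cz]
              linear_combination h3
            rw [h4] at this
            exact (mul_eq_zero.mp this).resolve_left two_ne_zero
          · have := dt_c2 (cz g) (cz p) (cz q) (cz r) s t
            rw [e3, e2, e1, e0] at this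
            have h4 : qs (cz (g * (r * r))).c2 (cz (w3 g q r)).c2 (cz (w2 g p q r)).c2 (cz (w3 g p q)).c2 t s = 0 := by
              simp only [cz, k0, k3, k2, k1, qs]
              simp
            rw [h4] at this
            exact (mul_eq_zero.mp this).resolve_left two_ne_zero) N
    refine ⟨C, hC, fun x z b hxz hz hb' => ?_⟩
    have hb0 : ¬ (b.c0 = 0 ∧ b.c1 = 0 ∧ b.c2 = 0) := by
      rintro ⟨h1, h2, h3⟩
      have h4 : b = 0 := by ext <;> simpa
      rw [h4] at hb'
      have h5 := congrArg c1 hb'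
      rw [of_mul_c1] at h5
      simp only [mul_zero, zero_c1] at h5
      have h6 : n * z = 0 := by linear_combination h5
      exact (mul_ne_zero hn hz) h6
    have hbc2 : (g * (b * b)).c2 = 0 := by
      rw [hb', of_mul_c2, mul_zero]
    obtain ⟨m, s, t, hm, hst, m0, m1, m2⟩ := hcov b.c0 b.c1 b.c2 hb0 (by rw [hq b]; exact hbc2)
    have hpt : pt p q r s t = of A B m * b := by
      ext
      · rw [of_mul_c0, m0]; rfl
      · rw [of_mul_c1, m1]; rfl
      · rw [of_mul_c2, m2]; rfl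
    have hsq : g * (pt p q r s t * pt p q r s t) = of A B (m ^ 2 * n) * ⟨x, -z, 0⟩ := by
      rw [hpt, map_mul, map_pow]
      linear_combination (of A B m) ^ 2 * hb'
    have hx : m ^ 2 * n * x = qf (g * (p * p)).c0 (w3 g p q).c0 (w2 g p q r).c0 (w3 g q r).c0
        (g * (r * r)).c0 s t := by
      rw [← sq_c0, hsq, of_mul_c0]
    have hz' : m ^ 2 * n * (-z) = qf (g * (p * p)).c1 (w3 g p q).c1 (w2 g p q r).c1 (w3 g q r).c1
        (g * (r * r)).c1 s t := by
      rw [← sq_c1, hsq, of_mul_c1]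
    have := hb s t x (-z) (m ^ 2 * n) hst (mul_ne_zero (pow_ne_zero 2 hm) hn) hxz.neg_right
      (neg_ne_zero.mpr hz) hx hz'
    push_cast at this
    rw [abs_neg] at this
    exact this
  · refine ⟨1, one_pos, fun x z b _ hz hb' => ?_⟩
    exfalso
    apply hex
    refine ⟨b, ?_, ?_⟩
    · rintro rfl
      have h5 := congrArg c1 hb'
      rw [of_mul_c1] at h5
      simp only [mul_zero, zero_c1] at h5
      have h6 : n * z = 0 := by linear_combination h5
      exact (mul_ne_zero hn hz) h6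
    · rw [hb', of_mul_c2, mul_zero]

end Pool.Agent.H19.TW
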