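import Pool.Agent.H19.TW.Count
import Pool.Agent.H19.TW.Forms
import Pool.Agent.H19.FS.Main

/-!
# Integral points on quadratic twists
-/

namespace Pool.Agent.H19.TW

open Cu Pool.Agent.H19.FS

/-- The bound for short Weierstrass forms. -/
theorem main_k {A B : ℤ} (hΔ : 4 * A ^ 3 + 27 * B ^ 2 ≠ 0) {k : ℤ} (hk : k ≠ 0) (N : ℕ) :
    ∃ C : ℝ, 0 < C ∧ ∀ x z y : ℤ, IsCoprime x z → z ≠ 0 → y ^ 2 = k * cf A B x z →
      |(x : ℝ)| ^ (2 * N + 1) ≤ C * |(z : ℝ)| ^ (4 * N + 4) := by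
  obtain ⟨r₀, U, hsm⟩ := exists_small hΔ hk
  obtain ⟨C₁, hC₁, hform⟩ := exists_uniform
    (Finset.Icc (-U) U ×ˢ Finset.Icc (-U) U ×ˢ Finset.Icc (-U) U)
    (fun i c => nm (⟨i.1, i.2.1, i.2.2⟩ : Cu A B) ≠ 0 → ∀ (x z : ℤ) (b : Cu A B), IsCoprime x z → z ≠ 0 →
      adj (⟨i.1, i.2.1, i.2.2⟩ : Cu A B) * (b * b) = of A B (nm (⟨i.1, i.2.1, i.2.2⟩ : Cu A B)) * ⟨x, -z, 0⟩ →
        |(x : ℝ)| ^ (2 * N + 1) ≤ (1 / c) * |(z : ℝ)| ^ (4 * N + 4))
    (by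
      intro i c c' hc' hcc h hn x z b h1 h2 h3
      refine (h hn x z b h1 h2 h3).trans ?_
      apply mul_le_mul_of_nonneg_right _ (by positivity)
      exact one_div_le_one_div_of_le hc' hcc)
    (by
      intro i _
      by_cases hn : nm (⟨i.1, i.2.1, i.2.2⟩ : Cu A B) = 0
      · exact ⟨1, one_pos, fun h => absurd hn h⟩
      · have hadj : nm (adj (⟨i.1, i.2.1, i.2.2⟩ : Cu A B)) ≠ 0 := by
          intro h
          have h1 := nm_mul (⟨i.1, i.2.1, i.2.2⟩ : Cu A B) (adj ⟨i.1, i.2.1, i.2.2⟩)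
          rw [mul_adj, nm_of, h, mul_zero] at h1
          exact hn (pow_eq_zero_iff (by norm_num) |>.mp h1)
        obtain ⟨C, hC, h⟩ := forms_bound hΔ hadj hn N
        refine ⟨1 / C, by positivity, fun _ x z b h1 h2 h3 => ?_⟩
        rw [one_div_one_div]
        exact h x z b h1 h2 h3)
  set K : ℝ := 2 * (|(A : ℝ)| + |(B : ℝ)|) + 1 with hK
  have hK1 : 1 ≤ K := by
    have := abs_nonneg (A : ℝ); have := abs_nonneg (B : ℝ)
    rw [hK]; linarith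
  refine ⟨K ^ (2 * N + 1) + (|(r₀ : ℝ)|) ^ (2 * N + 1) + 1 / C₁, by positivity, ?_⟩
  intro x z y hxz hz heq
  have hz1 : (1 : ℝ) ≤ |(z : ℝ)| := by
    have := Int.one_le_abs hz
    exact_mod_cast this
  have hzp : (1 : ℝ) ≤ |(z : ℝ)| ^ (4 * N + 4) := one_le_pow₀ hz1
  have hzp0 : (0 : ℝ) < |(z : ℝ)| ^ (4 * N + 4) := by positivity
  have t1 : 0 ≤ K ^ (2 * N + 1) := by positivity
  have t2 : 0 ≤ (|(r₀ : ℝ)|) ^ (2 * N + 1) := by positivity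
  have t3 : 0 ≤ 1 / C₁ := by positivity
  by_cases hc1 : (2 * (|A| + |B|) + 1) * |z| ≤ |x|
  · by_cases hc2 : r₀ ≤ |x|
    · obtain ⟨b, α, hα, ⟨a0, a1, a2⟩, hb⟩ := hsm x z y hxz heq hc1 hc2
      have hmem : (α.c0, α.c1, α.c2) ∈ Finset.Icc (-U) U ×ˢ Finset.Icc (-U) U ×ˢ Finset.Icc (-U) U := by
        rw [Finset.mem_product, Finset.mem_product, Finset.mem_Icc, Finset.mem_Icc, Finset.mem_Icc]
        exact ⟨abs_le.mp a0, abs_le.mp a1, abs_le.mp a2⟩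
      have h := hform _ hmem hα x z b hxz hz (by
        show adj α * (b * b) = of A B (nm α) * el A B x z
        rw [hb, ← mul_adj]
        ring)
      refine h.trans ?_
      apply mul_le_mul_of_nonneg_right _ hzp0.le
      linarith
    · have h1 : |(x : ℝ)| ≤ |(r₀ : ℝ)| := by
        have h2 : |x| ≤ |r₀| := by
          have := le_abs_self r₀
          omega
        exact_mod_cast h2
      calc |(x : ℝ)| ^ (2 * N + 1) ≤ |(r₀ : ℝ)| ^ (2 * N + 1) := pow_le_pow_left₀ (abs_nonneg _) h1 _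
        _ ≤ |(r₀ : ℝ)| ^ (2 * N + 1) * |(z : ℝ)| ^ (4 * N + 4) := le_mul_of_one_le_right t2 hzp
        _ ≤ _ := by
            apply mul_le_mul_of_nonneg_right _ hzp0.le
            linarith
  · have h1 : |(x : ℝ)| ≤ K * |(z : ℝ)| := by
      push Not at hc1
      have h2 : ((|x| : ℤ) : ℝ) ≤ (((2 * (|A| + |B|) + 1) * |z| : ℤ) : ℝ) := by exact_mod_cast hc1.le
      push_cast at h2
      rw [hK]; exact h2
    calc |(x : ℝ)| ^ (2 * N + 1) ≤ (K * |(z : ℝ)|) ^ (2 * N + 1) := pow_le_pow_left₀ (abs_nonneg _) h1 _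
      _ = K ^ (2 * N + 1) * |(z : ℝ)| ^ (2 * N + 1) := mul_pow _ _ _
      _ ≤ K ^ (2 * N + 1) * |(z : ℝ)| ^ (4 * N + 4) := by
          apply mul_le_mul_of_nonneg_left _ t1
          exact pow_le_pow_right₀ hz1 (by omega)
      _ ≤ _ := by
          apply mul_le_mul_of_nonneg_right _ hzp0.le
          linarith

/-- The same with real exponents. -/
theorem main_rpow {A B : ℤ} (hΔ : 4 * A ^ 3 + 27 * B ^ 2 ≠ 0) {k : ℤ} (hk : k ≠ 0) {ε : ℝ} (hε : 0 < ε) :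
    ∃ C : ℝ, 0 < C ∧ ∀ x z y : ℤ, IsCoprime x z → z ≠ 0 → y ^ 2 = k * cf A B x z →
      |(x : ℝ)| ≤ C * |(z : ℝ)| ^ (2 + ε) := by
  obtain ⟨N, hN⟩ := exists_nat_ge (1 / ε)
  obtain ⟨C, hC, h⟩ := main_k hΔ hk N
  refine ⟨C ^ (1 / ((2 * N + 1 : ℕ) : ℝ)), by positivity, fun x z y h1 h2 h3 => ?_⟩
  have hz1 : (1 : ℝ) ≤ |(z : ℝ)| := by
    have := Int.one_le_abs h2
    exact_mod_cast this
  have h4 := h x z y h1 h2 h3
  have hM : ((2 * N + 1 : ℕ) : ℝ) ≠ 0 := by positivity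
  have h5 : |(x : ℝ)| = (|(x : ℝ)| ^ (2 * N + 1)) ^ (1 / ((2 * N + 1 : ℕ) : ℝ)) := by
    rw [one_div, Real.pow_rpow_inv_natCast (abs_nonneg _) (by omega)]
  rw [h5]
  calc (|(x : ℝ)| ^ (2 * N + 1)) ^ (1 / ((2 * N + 1 : ℕ) : ℝ)) ≤
      (C * |(z : ℝ)| ^ (4 * N + 4)) ^ (1 / ((2 * N + 1 : ℕ) : ℝ)) :=
        Real.rpow_le_rpow (by positivity) h4 (by positivity)
    _ = C ^ (1 / ((2 * N + 1 : ℕ) : ℝ)) * |(z : ℝ)| ^ (((4 * N + 4 : ℕ) : ℝ) * (1 / ((2 * N + 1 : ℕ) : ℝ))) := by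
        rw [Real.mul_rpow hC.le (by positivity), Real.rpow_mul (abs_nonneg _), Real.rpow_natCast]
    _ ≤ _ := by
        apply mul_le_mul_of_nonneg_left _ (by positivity)
        apply Real.rpow_le_rpow_of_exponent_le hz1
        have h6 : (0 : ℝ) < ((2 * N + 1 : ℕ) : ℝ) := by positivity
        rw [mul_one_div, div_le_iff₀ h6]
        push_cast
        have h7 : 1 ≤ (N : ℝ) * ε := by
          have := (div_le_iff₀ hε).mp hN
          linarith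
        nlinarith

/-- General cubic forms. -/
def cg (a b c d x z : ℤ) : ℤ := a * x ^ 3 + b * z * x ^ 2 + c * z ^ 2 * x + d * z ^ 3

/-- The bound for the twists of `y² = a x³ + b x² + c x + d`. -/
theorem twists {a b c d : ℤ} (ha : a ≠ 0)
    (hdisc : b ^ 2 * c ^ 2 - 4 * a * c ^ 3 - 4 * b ^ 3 * d - 27 * a ^ 2 * d ^ 2 + 18 * a * b * c * d ≠ 0)
    (G : ℕ) {ε : ℝ} (hε : 0 < ε) :
    ∃ C : ℝ, 0 < C ∧ ∀ D x y : ℤ, D ≠ 0 → Int.gcd x D ≤ G → y ^ 2 = cg a b c d x D →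
      |(x : ℝ)| ≤ C * |(D : ℝ)| ^ (2 + ε) := by
  set A : ℤ := 9 * a * c - 3 * b ^ 2 with hA
  set B : ℤ := 27 * a ^ 2 * d - 9 * a * b * c + 2 * b ^ 3 with hB
  have hΔ : 4 * A ^ 3 + 27 * B ^ 2 ≠ 0 := by
    have h1 : 4 * A ^ 3 + 27 * B ^ 2 = -(729 * a ^ 2 * (b ^ 2 * c ^ 2 - 4 * a * c ^ 3 - 4 * b ^ 3 * d -
        27 * a ^ 2 * d ^ 2 + 18 * a * b * c * d)) := by rw [hA, hB]; ring
    rw [h1]
    exact neg_ne_zero.mpr (mul_ne_zero (mul_ne_zero (by norm_num) (pow_ne_zero 2 ha)) hdisc)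
  set T : ℤ := |3 * a| * G with hT
  obtain ⟨c₂, hc₂, hu⟩ := exists_uniform (Finset.Icc (-T) T)
    (fun i c => i ≠ 0 → ∀ x z y : ℤ, IsCoprime x z → z ≠ 0 → y ^ 2 = (3 * i) * cf A B x z →
      |(x : ℝ)| ≤ (1 / c) * |(z : ℝ)| ^ (2 + ε))
    (by
      intro i c c' hc' hcc h hi x z y h1 h2 h3
      refine (h hi x z y h1 h2 h3).trans ?_
      apply mul_le_mul_of_nonneg_right _ (by positivity)
      exact one_div_le_one_div_of_le hc' hcc)
    (by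
      intro i _
      by_cases hi : i = 0
      · exact ⟨1, one_pos, fun h => absurd hi h⟩
      · obtain ⟨C, hC, h⟩ := main_rpow hΔ (k := 3 * i) (mul_ne_zero (by norm_num) hi) hε
        refine ⟨1 / C, by positivity, fun _ x z y h1 h2 h3 => ?_⟩
        rw [one_div_one_div]
        exact h x z y h1 h2 h3)
  have hT0 : 0 ≤ T := by rw [hT]; positivity
  have hT0' : (0 : ℝ) ≤ T := by exact_mod_cast hT0
  refine ⟨T * (1 / c₂) + |(b : ℝ)| + 1, by positivity, ?_⟩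
  intro D x y hD hG heq
  obtain ⟨g, X₁, D₁, hg, hX, hD1, hcop⟩ := Pool.Agent.H19.FO.split_gcd (3 * a * x + b * D) D (fun h => hD h.2)
  have hD10 : D₁ ≠ 0 := by
    rintro rfl
    exact hD (by rw [hD1, mul_zero])
  have hgT : |g| ≤ T := by
    have h1 : g ∣ 3 * a * x := by
      have h2 : 3 * a * x = (3 * a * x + b * D) - b * D := by ring
      rw [h2]
      apply dvd_sub
      · exact ⟨X₁, hX⟩
      · exact Dvd.dvd.mul_left ⟨D₁, hD1⟩ b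
    have h3 : g ∣ 3 * a * (Int.gcd x D : ℤ) := by
      rw [Int.gcd_eq_gcd_ab x D]
      have h4 : 3 * a * (x * Int.gcdA x D + D * Int.gcdB x D) =
          3 * a * x * Int.gcdA x D + D * (3 * a * Int.gcdB x D) := by ring
      rw [h4]
      exact dvd_add (Dvd.dvd.mul_right h1 _) (Dvd.dvd.mul_right ⟨D₁, hD1⟩ _)
    have hgcd : (0 : ℤ) < (Int.gcd x D : ℤ) := by
      exact_mod_cast Int.gcd_pos_of_ne_zero_right _ hD
    have h5 : 0 < |3 * a * (Int.gcd x D : ℤ)| := by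
      apply abs_pos.mpr
      exact mul_ne_zero (mul_ne_zero (by norm_num) ha) hgcd.ne'
    have h6 : |g| ≤ |3 * a * (Int.gcd x D : ℤ)| := Int.le_of_dvd h5 ((abs_dvd_abs _ _).mpr h3)
    refine h6.trans ?_
    rw [hT, abs_mul (3 * a), abs_of_pos hgcd]
    apply mul_le_mul_of_nonneg_left _ (abs_nonneg _)
    exact_mod_cast hG
  obtain ⟨W, hW⟩ : g ∣ 9 * a * y := by
    have h1 : g ^ 2 ∣ (9 * a * y) ^ 2 := by
      refine ⟨3 * g * cf A B X₁ D₁, ?_⟩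
      have h2 : cf A B (3 * a * x + b * D) D = 27 * a ^ 2 * cg a b c d x D := by
        unfold cf cg
        rw [hA, hB]; ring
      rw [hX, hD1] at h2
      have h3 : cf A B (g * X₁) (g * D₁) = g ^ 3 * cf A B X₁ D₁ := by unfold cf; ring
      rw [h3, ← hD1, ← heq] at h2
      linear_combination (-3 : ℤ) * h2
    exact (Int.pow_dvd_pow_iff (by norm_num)).mp h1
  have hW2 : W ^ 2 = (3 * g) * cf A B X₁ D₁ := by
    have hg2 : g ^ 2 ≠ 0 := pow_ne_zero 2 hg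
    apply mul_left_cancel₀ hg2
    have h2 : cf A B (3 * a * x + b * D) D = 27 * a ^ 2 * cg a b c d x D := by
      unfold cf cg
      rw [hA, hB]; ring
    rw [hX, hD1] at h2
    have h3 : cf A B (g * X₁) (g * D₁) = g ^ 3 * cf A B X₁ D₁ := by unfold cf; ring
    rw [h3, ← hD1, ← heq] at h2
    linear_combination (-(9 * a * y) - g * W) * hW + (-3 : ℤ) * h2
  have hmain := hu g (Finset.mem_Icc.mpr (abs_le.mp hgT)) hg X₁ D₁ W hcop hD10 hW2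
  -- sizes
  have hD1r : |(D₁ : ℝ)| ≤ |(D : ℝ)| := by
    have h1 : |D₁| ≤ |D| := by
      rw [hD1, abs_mul]
      have := Int.one_le_abs hg
      nlinarith [abs_nonneg D₁]
    exact_mod_cast h1
  have hDr : (1 : ℝ) ≤ |(D : ℝ)| := by
    have := Int.one_le_abs hD
    exact_mod_cast this
  have hDp : |(D : ℝ)| ≤ |(D : ℝ)| ^ (2 + ε) := by
    calc |(D : ℝ)| = |(D : ℝ)| ^ (1 : ℝ) := (Real.rpow_one _).symm
      _ ≤ _ := Real.rpow_le_rpow_of_exponent_le hDr (by linarith)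
  have hgr : |(g : ℝ)| ≤ T := by exact_mod_cast hgT
  have hX1 : |(X₁ : ℝ)| ≤ (1 / c₂) * |(D : ℝ)| ^ (2 + ε) := by
    refine hmain.trans ?_
    apply mul_le_mul_of_nonneg_left _ (by positivity)
    exact Real.rpow_le_rpow (abs_nonneg _) hD1r (by linarith)
  have h3x : |(x : ℝ)| ≤ |(3 * a * x : ℝ)| := by
    rw [abs_mul]
    have h1 : (1 : ℝ) ≤ |3 * (a : ℝ)| := by
      have h2 := Int.one_le_abs ha
      have h3 : (1 : ℝ) ≤ |(a : ℝ)| := by exact_mod_cast h2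
      rw [abs_mul]
      have : |(3 : ℝ)| = 3 := abs_of_pos (by norm_num)
      rw [this]; linarith
    nlinarith [abs_nonneg (x : ℝ)]
  have h4 : (3 * a * x : ℝ) = g * X₁ - b * D := by
    have : 3 * a * x = g * X₁ - b * D := by linear_combination hX
    exact_mod_cast this
  rw [h4] at h3x
  have hDp0 : (0 : ℝ) < |(D : ℝ)| ^ (2 + ε) := by positivity
  calc |(x : ℝ)| ≤ |(g : ℝ) * X₁ - b * D| := h3x
    _ ≤ |(g : ℝ) * X₁| + |(b : ℝ) * D| := abs_sub _ _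
    _ = |(g : ℝ)| * |(X₁ : ℝ)| + |(b : ℝ)| * |(D : ℝ)| := by rw [abs_mul, abs_mul]
    _ ≤ T * ((1 / c₂) * |(D : ℝ)| ^ (2 + ε)) + |(b : ℝ)| * |(D : ℝ)| ^ (2 + ε) := by
        gcongr
    _ ≤ (T * (1 / c₂) + |(b : ℝ)| + 1) * |(D : ℝ)| ^ (2 + ε) := by nlinarith

/-- Optimality: congruent number curves. -/
theorem optimal (M : ℤ) : ∃ D x y : ℤ, M ≤ D ∧ D ≠ 0 ∧ IsCoprime x D ∧ y ^ 2 = x ^ 3 - D ^ 2 * x ∧ D ^ 2 < 2 * x := by
  obtain ⟨D, s, hD1, hs, hM, hP⟩ : ∃ D s : ℤ, 1 ≤ D ∧ 1 ≤ s ∧ M ≤ D ∧ D ^ 2 - 2 * s ^ 2 = -1 := by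
    have key : ∀ n : ℕ, ∃ D s : ℤ, 1 ≤ D ∧ 1 ≤ s ∧ (n : ℤ) ≤ D ∧ D ^ 2 - 2 * s ^ 2 = -1 := by
      intro n
      induction n with
      | zero => exact ⟨1, 1, le_refl _, le_refl _, by norm_num, by norm_num⟩
      | succ n ih =>
        obtain ⟨D, s, h1, h2, h3, h4⟩ := ih
        refine ⟨3 * D + 4 * s, 2 * D + 3 * s, by linarith, by linarith, by push_cast; linarith, ?_⟩
        linear_combination h4
    obtain ⟨D, s, h1, h2, h3, h4⟩ := key M.toNat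
    exact ⟨D, s, h1, h2, by have := Int.self_le_toNat M; omega, h4⟩
  refine ⟨D, s ^ 2, s * (s ^ 2 - 1), hM, by omega, ?_, ?_, ?_⟩
  · have h1 : IsCoprime s D := ⟨2 * s, -D, by linear_combination -hP⟩
    exact h1.pow_left
  · have h2 : D ^ 2 = 2 * s ^ 2 - 1 := by linear_combination hP
    rw [h2]; ring
  · linarith

end Pool.Agent.H19.TW
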