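import Pool.Agent.H19.TW.Ring
import Pool.Agent.H19.TW.Conic

/-!
# The two binary quartic forms: no common and no multiple zeros
-/

namespace Pool.Agent.H19.TW

open Cu

/-- The point with parameters `s, t`. -/
def pt {K : Type*} [CommRing K] {A B : K} (p q r : Cu A B) (s t : K) : Cu A B :=
  ⟨p.c0 * s ^ 2 + q.c0 * (s * t) + r.c0 * t ^ 2, p.c1 * s ^ 2 + q.c1 * (s * t) + r.c1 * t ^ 2,
    p.c2 * s ^ 2 + q.c2 * (s * t) + r.c2 * t ^ 2⟩

/-- The determinant of three elements. -/
def dt {K : Type*} [CommRing K] {A B : K} (p q r : Cu A B) : K :=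
  det3 p.c0 p.c1 p.c2 q.c0 q.c1 q.c2 r.c0 r.c1 r.c2

lemma dt_indep {K : Type*} [CommRing K] [NoZeroDivisors K] {A B : K} {p q r : Cu A B} {x y z : K}
    (hdet : dt p q r ≠ 0) (h : of A B x * p + of A B y * q + of A B z * r = 0) : x = 0 ∧ y = 0 ∧ z = 0 := by
  have h0 := congrArg c0 h
  have h1 := congrArg c1 h
  have h2 := congrArg c2 h
  simp only [add_c0, add_c1, add_c2, of_mul_c0, of_mul_c1, of_mul_c2, zero_c0, zero_c1, zero_c2] at h0 h1 h2
  have e1 : dt p q r * x = 0 := by
    unfold dt det3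
    linear_combination (q.c1 * r.c2 - q.c2 * r.c1) * h0 - (q.c0 * r.c2 - q.c2 * r.c0) * h1 +
      (q.c0 * r.c1 - q.c1 * r.c0) * h2
  have e2 : dt p q r * y = 0 := by
    unfold dt det3
    linear_combination (r.c1 * p.c2 - r.c2 * p.c1) * h0 - (r.c0 * p.c2 - r.c2 * p.c0) * h1 +
      (r.c0 * p.c1 - r.c1 * p.c0) * h2
  have e3 : dt p q r * z = 0 := by
    unfold dt det3
    linear_combination (p.c1 * q.c2 - p.c2 * q.c1) * h0 - (p.c0 * q.c2 - p.c2 * q.c0) * h1 +
      (p.c0 * q.c1 - p.c1 * q.c0) * h2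
  exact ⟨(mul_eq_zero.mp e1).resolve_left hdet, (mul_eq_zero.mp e2).resolve_left hdet,
    (mul_eq_zero.mp e3).resolve_left hdet⟩

variable {F : Type*} [Field F] [CharZero F] {A B : F}

/-- No common zeros. -/
lemma no_common (hΔ : 4 * A ^ 3 + 27 * B ^ 2 ≠ 0) {g p q r : Cu A B} (hg : nm g ≠ 0) (hdet : dt p q r ≠ 0)
    {s t : F} (h : g * (pt p q r s t * pt p q r s t) = 0) : s = 0 ∧ t = 0 := by
  have h1 := eq_zero_of_sq hΔ (eq_zero_of_mul hg h)
  have h2 : of A B (s ^ 2) * p + of A B (s * t) * q + of A B (t ^ 2) * r = 0 := by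
    rw [← h1]
    ext
    · simp only [add_c0, of_mul_c0, pt]; ring
    · simp only [add_c1, of_mul_c1, pt]; ring
    · simp only [add_c2, of_mul_c2, pt]; ring
  obtain ⟨h3, _, h5⟩ := dt_indep hdet h2
  exact ⟨pow_eq_zero_iff (two_ne_zero) |>.mp h3, pow_eq_zero_iff (two_ne_zero) |>.mp h5⟩

/-- Half of the derivative with respect to `s`. -/
def ps {K : Type*} [CommRing K] {A B : K} (p q : Cu A B) (s t : K) : Cu A B :=
  ⟨2 * p.c0 * s + q.c0 * t, 2 * p.c1 * s + q.c1 * t, 2 * p.c2 * s + q.c2 * t⟩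

/-- No multiple zeros. -/
lemma no_multiple (hΔ : 4 * A ^ 3 + 27 * B ^ 2 ≠ 0) {g p q r : Cu A B} (hg : nm g ≠ 0) (hdet : dt p q r ≠ 0)
    {s t k k' c : F} (h : g * (pt p q r s t * pt p q r s t) = of A B c)
    (hs : g * (pt p q r s t * ps p q s t) = of A B k)
    (ht : g * (pt p q r s t * ps r q t s) = of A B k') : s = 0 ∧ t = 0 := by
  by_cases hc : c = 0
  · exact no_common hΔ hg hdet (by rw [h, hc, map_zero])
  set P := pt p q r s t with hP
  have e1 : of A B c * ps p q s t = of A B k * P := by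
    linear_combination (-(ps p q s t)) * h + P * hs
  have e2 : of A B c * ps r q t s = of A B k' * P := by
    linear_combination (-(ps r q t s)) * h + P * ht
  have e3 : of A B k' * ps p q s t - of A B k * ps r q t s = 0 := by
    apply eq_zero_of_of_mul hc
    linear_combination (of A B k') * e1 - (of A B k) * e2
  have e4 : of A B (2 * (k' * s)) * p + of A B (k' * t - k * s) * q + of A B (-(2 * (k * t))) * r = 0 := by
    rw [← e3]
    ext
    · simp only [add_c0, sub_c0, of_mul_c0, ps]; ring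
    · simp only [add_c1, sub_c1, of_mul_c1, ps]; ring
    · simp only [add_c2, sub_c2, of_mul_c2, ps]; ring
  obtain ⟨h5, h6, h7⟩ := dt_indep hdet e4
  have h5' : k' * s = 0 := by simpa using h5
  have h7' : k * t = 0 := by simpa using h7
  have hps : ∀ {k : F}, of A B c * ps p q s t = of A B k * P → k = 0 → s = 0 ∧ t = 0 := by
    intro k hk hk0
    rw [hk0, map_zero, zero_mul] at hk
    have h8 := eq_zero_of_of_mul hc hk
    have h9 : of A B (2 * s) * p + of A B t * q + of A B 0 * r = 0 := by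
      rw [← h8]
      ext
      · simp only [add_c0, of_mul_c0, ps]; ring
      · simp only [add_c1, of_mul_c1, ps]; ring
      · simp only [add_c2, of_mul_c2, ps]; ring
    obtain ⟨h10, h11, _⟩ := dt_indep hdet h9
    exact ⟨by simpa using h10, h11⟩
  by_cases hs0 : s = 0
  · by_cases ht0 : t = 0
    · exact ⟨hs0, ht0⟩
    · exact hps e1 ((mul_eq_zero.mp h7').resolve_right ht0)
  · have hk' : k' = 0 := (mul_eq_zero.mp h5').resolve_right hs0
    have hk : k = 0 := by
      rw [hk'] at h6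
      have : k * s = 0 := by linear_combination -h6
      exact (mul_eq_zero.mp this).resolve_right hs0
    exact hps e1 hk

end Pool.Agent.H19.TW
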