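import Mathlib

/-!
# The ring `K[θ]`, `θ³ + A θ + B = 0`
-/

namespace Pool.Agent.H19.TW

/-- Elements `c0 + c1 θ + c2 θ²` with `θ³ + A θ + B = 0`. -/
@[ext] structure Cu {K : Type*} (A B : K) where
  c0 : K
  c1 : K
  c2 : K

namespace Cu

variable {K : Type*} [CommRing K] {A B : K}

instance : Zero (Cu A B) := ⟨⟨0, 0, 0⟩⟩
instance : One (Cu A B) := ⟨⟨1, 0, 0⟩⟩
instance : Add (Cu A B) := ⟨fun a b => ⟨a.c0 + b.c0, a.c1 + b.c1, a.c2 + b.c2⟩⟩
instance : Neg (Cu A B) := ⟨fun a => ⟨-a.c0, -a.c1, -a.c2⟩⟩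
instance : Sub (Cu A B) := ⟨fun a b => ⟨a.c0 - b.c0, a.c1 - b.c1, a.c2 - b.c2⟩⟩
instance : Mul (Cu A B) := ⟨fun a b =>
  ⟨a.c0 * b.c0 - B * (a.c1 * b.c2 + a.c2 * b.c1),
    a.c0 * b.c1 + a.c1 * b.c0 - A * (a.c1 * b.c2 + a.c2 * b.c1) - B * (a.c2 * b.c2),
    a.c0 * b.c2 + a.c1 * b.c1 + a.c2 * b.c0 - A * (a.c2 * b.c2)⟩⟩

@[simp] lemma zero_c0 : (0 : Cu A B).c0 = 0 := rfl
@[simp] lemma zero_c1 : (0 : Cu A B).c1 = 0 := rfl
@[simp] lemma zero_c2 : (0 : Cu A B).c2 = 0 := rfl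
@[simp] lemma one_c0 : (1 : Cu A B).c0 = 1 := rfl
@[simp] lemma one_c1 : (1 : Cu A B).c1 = 0 := rfl
@[simp] lemma one_c2 : (1 : Cu A B).c2 = 0 := rfl
@[simp] lemma add_c0 (a b : Cu A B) : (a + b).c0 = a.c0 + b.c0 := rfl
@[simp] lemma add_c1 (a b : Cu A B) : (a + b).c1 = a.c1 + b.c1 := rfl
@[simp] lemma add_c2 (a b : Cu A B) : (a + b).c2 = a.c2 + b.c2 := rfl
@[simp] lemma neg_c0 (a : Cu A B) : (-a).c0 = -a.c0 := rfl
@[simp] lemma neg_c1 (a : Cu A B) : (-a).c1 = -a.c1 := rfl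
@[simp] lemma neg_c2 (a : Cu A B) : (-a).c2 = -a.c2 := rfl
@[simp] lemma sub_c0 (a b : Cu A B) : (a - b).c0 = a.c0 - b.c0 := rfl
@[simp] lemma sub_c1 (a b : Cu A B) : (a - b).c1 = a.c1 - b.c1 := rfl
@[simp] lemma sub_c2 (a b : Cu A B) : (a - b).c2 = a.c2 - b.c2 := rfl
@[simp] lemma mul_c0 (a b : Cu A B) : (a * b).c0 = a.c0 * b.c0 - B * (a.c1 * b.c2 + a.c2 * b.c1) := rfl
@[simp] lemma mul_c1 (a b : Cu A B) : (a * b).c1 =
    a.c0 * b.c1 + a.c1 * b.c0 - A * (a.c1 * b.c2 + a.c2 * b.c1) - B * (a.c2 * b.c2) := rfl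
@[simp] lemma mul_c2 (a b : Cu A B) : (a * b).c2 =
    a.c0 * b.c2 + a.c1 * b.c1 + a.c2 * b.c0 - A * (a.c2 * b.c2) := rfl

instance : CommRing (Cu A B) where
  add_assoc a b c := by ext <;> simp [add_assoc]
  zero_add a := by ext <;> simp
  add_zero a := by ext <;> simp
  nsmul := nsmulRec
  add_comm a b := by ext <;> simp [add_comm]
  left_distrib a b c := by ext <;> simp <;> ring
  right_distrib a b c := by ext <;> simp <;> ring
  zero_mul a := by ext <;> simp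
  mul_zero a := by ext <;> simp
  mul_assoc a b c := by ext <;> simp <;> ring
  one_mul a := by ext <;> simp
  mul_one a := by ext <;> simp
  sub_eq_add_neg a b := by ext <;> simp [sub_eq_add_neg]
  zsmul := zsmulRec
  neg_add_cancel a := by ext <;> simp
  mul_comm a b := by ext <;> simp <;> ring

/-- Scalars. -/
def of (A B : K) : K →+* Cu A B where
  toFun k := ⟨k, 0, 0⟩
  map_one' := rfl
  map_mul' a b := by ext <;> simp
  map_zero' := rfl
  map_add' a b := by ext <;> simp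

@[simp] lemma of_c0 (k : K) : (of A B k).c0 = k := rfl
@[simp] lemma of_c1 (k : K) : (of A B k).c1 = 0 := rfl
@[simp] lemma of_c2 (k : K) : (of A B k).c2 = 0 := rfl

lemma of_mul_c0 (k : K) (a : Cu A B) : (of A B k * a).c0 = k * a.c0 := by simp
lemma of_mul_c1 (k : K) (a : Cu A B) : (of A B k * a).c1 = k * a.c1 := by simp
lemma of_mul_c2 (k : K) (a : Cu A B) : (of A B k * a).c2 = k * a.c2 := by simp

/-- The norm. -/
def nm (a : Cu A B) : K :=
  -A * B * a.c1 * a.c2 ^ 2 + A ^ 2 * a.c0 * a.c2 ^ 2 + B ^ 2 * a.c2 ^ 3 + A * a.c0 * a.c1 ^ 2 -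
    2 * A * a.c0 ^ 2 * a.c2 + 3 * B * a.c0 * a.c1 * a.c2 - B * a.c1 ^ 3 + a.c0 ^ 3

/-- The product of the other conjugates. -/
def adj (a : Cu A B) : Cu A B :=
  ⟨A ^ 2 * a.c2 ^ 2 - 2 * A * a.c0 * a.c2 + A * a.c1 ^ 2 + B * a.c1 * a.c2 + a.c0 ^ 2,
    -B * a.c2 ^ 2 - a.c0 * a.c1, A * a.c2 ^ 2 - a.c0 * a.c2 + a.c1 ^ 2⟩

lemma mul_adj (a : Cu A B) : a * adj a = of A B (nm a) := by
  ext <;> simp only [mul_c0, mul_c1, mul_c2, of_c0, of_c1, of_c2, adj, nm] <;> ring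

lemma nm_mul (a b : Cu A B) : nm (a * b) = nm a * nm b := by
  simp only [nm, mul_c0, mul_c1, mul_c2]
  ring

lemma nm_of (k : K) : nm (of A B k) = k ^ 3 := by
  simp [nm]

lemma eq_zero_of_of_mul [NoZeroDivisors K] {k : K} (hk : k ≠ 0) {a : Cu A B} (h : of A B k * a = 0) : a = 0 := by
  have h0 := congrArg c0 h
  have h1 := congrArg c1 h
  have h2 := congrArg c2 h
  rw [of_mul_c0, zero_c0] at h0
  rw [of_mul_c1, zero_c1] at h1
  rw [of_mul_c2, zero_c2] at h2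
  ext
  · exact (mul_eq_zero.mp h0).resolve_left hk
  · exact (mul_eq_zero.mp h1).resolve_left hk
  · exact (mul_eq_zero.mp h2).resolve_left hk

lemma eq_zero_of_mul [NoZeroDivisors K] {g a : Cu A B} (hg : nm g ≠ 0) (h : g * a = 0) : a = 0 := by
  apply eq_zero_of_of_mul hg
  rw [← mul_adj]
  linear_combination (adj g) * h

/-- The ring is reduced if the discriminant is not zero. -/
lemma eq_zero_of_sq {F : Type*} [Field F] [CharZero F] {A B : F} (hΔ : 4 * A ^ 3 + 27 * B ^ 2 ≠ 0)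
    {a : Cu A B} (h : a * a = 0) : a = 0 := by
  have h0 := congrArg c0 h
  have h1 := congrArg c1 h
  have h2 := congrArg c2 h
  simp only [mul_c0, mul_c1, mul_c2, zero_c0, zero_c1, zero_c2] at h0 h1 h2
  by_cases h3 : a.c2 = 0
  · rw [h3] at h0 h1 h2
    have h4 : a.c0 = 0 := by
      have : a.c0 * a.c0 = 0 := by linear_combination h0
      simpa using this
    have h5 : a.c1 = 0 := by
      have : a.c1 * a.c1 = 0 := by linear_combination h2
      simpa using this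
    ext
    · exact h4
    · exact h5
    · exact h3
  · exfalso
    set u := a.c1 / a.c2 with hu
    set w := a.c0 / a.c2 with hw
    have e1 : a.c1 = u * a.c2 := by rw [hu]; field_simp
    have e0 : a.c0 = w * a.c2 := by rw [hw]; field_simp
    have hc : a.c2 ^ 2 ≠ 0 := pow_ne_zero 2 h3
    have f0 : w ^ 2 - 2 * B * u = 0 := by
      apply mul_left_cancel₀ hc
      rw [e0, e1] at h0
      linear_combination h0
    have f1 : 2 * w * u - 2 * A * u - B = 0 := by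
      apply mul_left_cancel₀ hc
      rw [e0, e1] at h1
      linear_combination h1
    have f2 : 2 * w + u ^ 2 - A = 0 := by
      apply mul_left_cancel₀ hc
      rw [e0, e1] at h2
      linear_combination h2
    have g1 : u ^ 3 + A * u + B = 0 := by linear_combination u * f2 - f1
    have g2 : (3 * u ^ 2 + A) ^ 2 = 0 := by
      linear_combination 4 * f0 + 8 * u * g1 + (2 * w - u ^ 2 + A) * (-1) * f2
    have g3 : 3 * u ^ 2 + A = 0 := by simpa using g2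
    apply hΔ
    linear_combination (27 * B - 27 * A * u - 27 * u ^ 3 ) * g1 + (4 * A ^ 2 + 15 * A * u ^ 2 + 9 * u ^ 4) * g3

end Cu

end Pool.Agent.H19.TW
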